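import Pool.Agent.H305.EF.Ene

/-!
Bounds from the energy inequality with the backward heat kernel.
-/

set_option autoImplicit false

open MeasureTheory Set Metric Filter Topology
open scoped ContDiff ENNReal

namespace Pool.Agent.H305.EF

open H459R3.NS W221.NS Pool.Agent.V1183.PM Pool.Agent.H305.OS Pool.Agent.H305.SL Pool.Agent.H305.PL

/-- Solutions with bounds for the energy and the dissipation. -/
structure ST (ν T : ℝ) (u : ℝ → V → V) (p : ℝ → V → ℝ) (t₀ E : ℝ) : Prop extends HS ν T u p where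
  t0 : 0 < t₀
  tT : t₀ < T
  E0 : 0 ≤ E
  e1 : ∀ t ∈ Ico t₀ T, ∫⁻ x, ENNReal.ofReal (nw (cw u t) x) ≤ ENNReal.ofReal E
  e2 : ∫⁻ t in Ioo t₀ T, ∫⁻ x, ENNReal.ofReal (gw (cw u t) x) ≤ ENNReal.ofReal E

section
variable {ν T t₀ E : ℝ} {u : ℝ → V → V} {p : ℝ → V → ℝ}

lemma ST_of (h : HS ν T u p) {a : ℝ} (ha : 0 < a) (haT : a < T) :
    ∃ t₀ ∈ Ioo a T, ∃ E : ℝ, ST ν T u p t₀ E := by
  obtain ⟨s₁, hs₁, hs₁d⟩ := h.small ha haT (κ := 1) one_pos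
  have hs0 : 0 < s₁ := ha.trans hs₁.1
  have hE0 : 0 ≤ en u s₁ := en_nonneg _ _
  refine ⟨s₁, hs₁, en u s₁ + 1, h, hs0, hs₁.2, by linarith, ?_, ?_⟩
  · intro t ht
    rw [nw_en fun i => h.cw_HF ⟨hs0.trans_le ht.1, ht.2⟩ i]
    apply ENNReal.ofReal_le_ofReal
    have := h.en_anti hs0 ht.1 ht.2
    linarith
  · refine (HS.diss_le h ⟨hs0, hs₁.2⟩ hs₁d).trans (ENNReal.ofReal_le_ofReal ?_)
    linarith

lemma ST.mem0 (h : ST ν T u p t₀ E) {τ : ℝ} (hτ : τ ∈ Ico t₀ T) : τ ∈ Ioo 0 T :=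
  ⟨h.t0.trans_le hτ.1, hτ.2⟩

/-- The bound for the total flux. -/
lemma Fx_le : ∃ K : ℝ≥0∞, K ≠ ⊤ ∧ ∀ (ν T : ℝ) (u : ℝ → V → V) (p : ℝ → V → ℝ) (t₀ E : ℝ),
    ST ν T u p t₀ E → ∀ τ ∈ Ico t₀ T, Fx u p τ ≤ K * ((ENNReal.ofReal E + 1) ^ 2
      * (1 + ∫⁻ x, ENNReal.ofReal (gw (cw u τ) x))) := by
  obtain ⟨Cp, hCp, hp⟩ := press_bd
  refine ⟨3 * (108 + ENNReal.ofReal (2 * Cp) * 800), ?_, ?_⟩
  · exact ENNReal.mul_ne_top (by norm_num) (ENNReal.add_ne_top.2 ⟨by norm_num,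
      ENNReal.mul_ne_top ENNReal.ofReal_ne_top (by norm_num)⟩)
  · intro ν T u p t₀ E h τ hτ
    unfold Fx
    calc ∑ j, gF (cw u τ) (p τ) (cw u τ j)
        ≤ ∑ _j : Fin 3, (108 + ENNReal.ofReal (2 * Cp) * 800) * ((ENNReal.ofReal E + 1) ^ 2
          * (1 + ∫⁻ x, ENNReal.ofReal (gw (cw u τ) x))) :=
          Finset.sum_le_sum fun j _ => gF_le hp h.toHS (h.mem0 hτ) le_add_self
            ((h.e1 τ hτ).trans le_self_add) j
      _ = _ := by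
          rw [Finset.sum_const, Finset.card_univ, Fintype.card_fin, nsmul_eq_mul]
          push_cast
          ring

lemma Fx_aem (h : HS ν T u p) {I : Set ℝ} (hI : MeasurableSet I) (hIT : I ⊆ Ioo 0 T) :
    AEMeasurable (Fx u p) (volume.restrict I) := by
  unfold Fx
  refine Finset.aemeasurable_fun_sum _ fun j _ => ?_
  have h1 := C_aem (T := T) (F := fun τ x => (nw (cw u τ) x + 2 * |p τ x|) * |cw u τ j x|) ?_ univ
    (μ := volume) hI hIT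
  · unfold gF
    rw [Measure.restrict_univ] at h1
    exact h1
  · have c1 : ContinuousOn (fun z : ℝ × V => nw (cw u z.1) z.2) (Ioo 0 T ×ˢ univ) :=
      (HS.j_nw h).continuousOn
    have c2 : ContinuousOn (fun z : ℝ × V => p z.1 z.2) (Ioo 0 T ×ˢ univ) := h.jp.continuousOn
    have c3 : ContinuousOn (fun z : ℝ × V => cw u z.1 j z.2) (Ioo 0 T ×ˢ univ) := (h.ju j).continuousOn
    exact (c1.add (continuousOn_const.mul c2.abs)).mul c3.abs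

lemma ST.gw_fin (h : ST ν T u p t₀ E) {τ : ℝ} (hτ : τ ∈ Ico t₀ T) :
    ∫⁻ x, ENNReal.ofReal (gw (cw u τ) x) ≠ ⊤ :=
  (gw_int fun i => h.toHS.cw_HF (h.mem0 hτ) i).lintegral_lt_top.ne

lemma ST.Fx_fin (h : ST ν T u p t₀ E) {τ : ℝ} (hτ : τ ∈ Ico t₀ T) : Fx u p τ ≠ ⊤ := by
  obtain ⟨K, hK, hF⟩ := Fx_le
  refine ne_top_of_le_ne_top ?_ (hF ν T u p t₀ E h τ hτ)
  refine ENNReal.mul_ne_top hK (ENNReal.mul_ne_top ?_ ?_)
  · exact ENNReal.pow_ne_top (ENNReal.add_ne_top.2 ⟨ENNReal.ofReal_ne_top, ENNReal.one_ne_top⟩)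
  · exact ENNReal.add_ne_top.2 ⟨ENNReal.one_ne_top, h.gw_fin hτ⟩

lemma ST.Fx_int (h : ST ν T u p t₀ E) : IntegrableOn (fun τ => (Fx u p τ).toReal) (Ioo t₀ T) := by
  obtain ⟨K, hK, hF⟩ := Fx_le
  have hsub : Ioo t₀ T ⊆ Ioo 0 T := Ioo_subset_Ioo_left h.t0.le
  refine integrable_toReal_of_lintegral_ne_top (Fx_aem h.toHS measurableSet_Ioo hsub) ?_
  have h1 : ∫⁻ τ in Ioo t₀ T, Fx u p τ ≤ ∫⁻ τ in Ioo t₀ T, K * ((ENNReal.ofReal E + 1) ^ 2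
      * (1 + ∫⁻ x, ENNReal.ofReal (gw (cw u τ) x))) :=
    setLIntegral_mono' measurableSet_Ioo fun τ hτ => hF ν T u p t₀ E h τ ⟨hτ.1.le, hτ.2⟩
  refine ne_top_of_le_ne_top ?_ h1
  have hc : (ENNReal.ofReal E + 1) ^ 2 ≠ ⊤ :=
    ENNReal.pow_ne_top (ENNReal.add_ne_top.2 ⟨ENNReal.ofReal_ne_top, ENNReal.one_ne_top⟩)
  rw [lintegral_const_mul' _ _ hK, lintegral_const_mul' _ _ hc,
    lintegral_add_left (measurable_const : Measurable fun _ : ℝ => (1 : ℝ≥0∞)),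
    setLIntegral_one, Real.volume_Ioo]
  refine ENNReal.mul_ne_top hK (ENNReal.mul_ne_top hc (ENNReal.add_ne_top.2
    ⟨ENNReal.ofReal_ne_top, ?_⟩))
  exact ne_top_of_le_ne_top ENNReal.ofReal_ne_top h.e2

end

section
variable {I : Finset (Fin 3)} {ν T t₀ E R δ : ℝ} {x₀ : V}
  {u : ℝ → V → V} {p : ℝ → V → ℝ} {m : ℝ → ℝ} {n : ℕ}

/-- The energy inequality. -/
lemma en_K (h : ST ν T u p t₀ E) (hI : I.card = n + 1) (hR : 0 < R) (hδ1 : δ ≤ 1)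
    (hm : IntegrableOn m (Ioo t₀ T))
    (hin : ∀ᵐ τ ∂(volume.restrict (Ioo t₀ T)), InL I x₀ R ν δ (cw u τ) (p τ) (m τ)) :
    ∃ C : ℝ, 0 ≤ C ∧ ∀ t₁ s T' : ℝ, t₀ ≤ t₁ → t₁ ≤ s → s < T → s < T' → T' ≤ T + 1 →
    IntegrableOn (fun τ => ν * dsW (cw u τ) (kI I ν T' x₀ τ)) (Ioc t₁ s) ∧
    enW (cw u s) (kI I ν T' x₀ s)
      + 2 * δ * ∫ τ in Ioc t₁ s, ν * dsW (cw u τ) (kI I ν T' x₀ τ)
      ≤ enW (cw u t₁) (kI I ν T' x₀ t₁)
        + (2 * √(Real.pi * ν) * (((√(T' - s))⁻¹) ^ n * ∫ τ in Ioc t₁ s, |m τ|)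
          + C * ∫ τ in Ioc t₁ s, (Fx u p τ).toReal) := by
  have hν := h.hν
  obtain ⟨C, hC, hfar⟩ := kfar I (ν := ν) (R := R) (T₁ := T + 1) hν hR x₀
  refine ⟨C, hC, ?_⟩
  intro t₁ s T' ht₁ hts hs hsT' hT'
  have ht₁0 : 0 < t₁ := h.t0.trans_le ht₁
  obtain ⟨i1, i2, e⟩ := gidK h.toHS ht₁0 hts hs hsT' I x₀
  refine ⟨i1, ?_⟩
  have hsub : Ioc t₁ s ⊆ Ioo t₀ T := fun τ hτ => ⟨ht₁.trans_lt hτ.1, hτ.2.trans_lt hs⟩
  have hm' : IntegrableOn m (Ioc t₁ s) := hm.mono_set hsub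
  have hF' : IntegrableOn (fun τ => (Fx u p τ).toReal) (Ioc t₁ s) := h.Fx_int.mono_set hsub
  have hr0 : 0 < √(T' - s) := Real.sqrt_pos.2 (by linarith)
  have j1 : IntegrableOn (fun τ => 2 * √(Real.pi * ν) * (((√(T' - s))⁻¹) ^ n) * |m τ|) (Ioc t₁ s) :=
    hm'.abs.const_mul _
  have j2 : IntegrableOn (fun τ => C * (Fx u p τ).toReal) (Ioc t₁ s) := hF'.const_mul _
  have j12 : IntegrableOn (fun τ => 2 * √(Real.pi * ν) * (((√(T' - s))⁻¹) ^ n) * |m τ|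
      + C * (Fx u p τ).toReal) (Ioc t₁ s) := j1.add j2
  have j3 : IntegrableOn (fun τ => 2 * δ * (ν * dsW (cw u τ) (kI I ν T' x₀ τ))) (Ioc t₁ s) :=
    i1.const_mul _
  have hmono : ∫ τ in Ioc t₁ s, (flW (cw u τ) (p τ) (kI I ν T' x₀ τ)
        - 2 * (ν * dsW (cw u τ) (kI I ν T' x₀ τ)))
      ≤ ∫ τ in Ioc t₁ s, ((2 * √(Real.pi * ν) * (((√(T' - s))⁻¹) ^ n) * |m τ|
        + C * (Fx u p τ).toReal) - 2 * δ * (ν * dsW (cw u τ) (kI I ν T' x₀ τ))) := by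
    refine integral_mono_ae (i2.sub (i1.const_mul 2)) (j12.sub j3) ?_
    filter_upwards [ae_restrict_of_ae_restrict_of_subset hsub hin, ae_restrict_mem measurableSet_Ioc]
      with τ h1 h2
    have hτ : τ ∈ Ioo 0 T := ⟨ht₁0.trans h2.1, h2.2.trans_lt hs⟩
    have hτ' : τ < T' := h2.2.trans_lt hsT'
    have h3 := flW_InL (T' := T') (τ := τ) hI hν hR hδ1 hτ' hC
      (hfar T' τ (by linarith) (by linarith [hτ.1])) (fun i => h.toHS.cw_HF hτ i)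
      (h.div τ hτ) (h.toHS.p_HF hτ) (h.Fx_fin ⟨ht₁.trans h2.1.le, h2.2.trans_lt hs⟩) h1
    have h4 : ((√(T' - τ))⁻¹) ^ n ≤ ((√(T' - s))⁻¹) ^ n := by
      refine pow_le_pow_left₀ (by positivity) (inv_anti₀ hr0 (Real.sqrt_le_sqrt ?_)) n
      linarith [h2.2]
    have h5 : 2 * √(Real.pi * ν) * (((√(T' - τ))⁻¹) ^ n * |m τ|)
        ≤ 2 * √(Real.pi * ν) * (((√(T' - s))⁻¹) ^ n) * |m τ| := by
      calc 2 * √(Real.pi * ν) * (((√(T' - τ))⁻¹) ^ n * |m τ|)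
          ≤ 2 * √(Real.pi * ν) * (((√(T' - s))⁻¹) ^ n * |m τ|) :=
            mul_le_mul_of_nonneg_left (mul_le_mul_of_nonneg_right h4 (abs_nonneg _)) (by positivity)
        _ = _ := by ring
    have h6 : (∑ j, gF (cw u τ) (p τ) (cw u τ j)).toReal = (Fx u p τ).toReal := rfl
    rw [h6] at h3
    linarith
  rw [integral_sub j12 j3, integral_add j1 j2, integral_const_mul, integral_const_mul,
    integral_const_mul] at hmono
  linarith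

/-- The upper bound for the kernel. -/
lemma kI_up (hI : I.card = n + 1) (hν : 0 < ν) {T' τ : ℝ} (hτ : τ < T') (x : V) :
    kI I ν T' x₀ τ x ≤ ((√(T' - τ))⁻¹) ^ (n + 1) := by
  rw [kI_eq, hI]
  have ha : 0 < T' - τ := by linarith
  have h1 : Real.exp (-(1 / (4 * ν * (T' - τ))) * qI I x₀ x) ≤ 1 := by
    rw [Real.exp_le_one_iff, neg_mul, neg_nonpos]
    have := qI_nonneg I x₀ x
    positivity
  exact mul_le_of_le_one_right (by positivity) h1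

/-- The energy of the initial value. -/
lemma enW_up (h : ST ν T u p t₀ E) (hI : I.card = n + 1) {T' τ : ℝ} (hτ : τ ∈ Ico t₀ T) (hτ' : τ < T') :
    enW (cw u τ) (kI I ν T' x₀ τ) ≤ ((√(T' - τ))⁻¹) ^ (n + 1) * E := by
  have hν := h.hν
  have hE := h.E0
  have hw : ∀ i, HF (cw u τ i) := fun i => h.toHS.cw_HF (h.mem0 hτ) i
  rw [← ENNReal.ofReal_le_ofReal_iff (by positivity), enW_lint hw (kI_BF hν hτ')
    (fun x => kI_nonneg x), ENNReal.ofReal_mul (by positivity)]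
  refine le_trans ?_ (mul_le_mul_right (h.e1 τ hτ) _)
  rw [← lintegral_const_mul' _ _ ENNReal.ofReal_ne_top]
  refine lintegral_mono fun x => ?_
  rw [mul_comm]
  exact mul_le_mul_left (ENNReal.ofReal_le_ofReal (kI_up hI hν hτ' x)) _

/-- The bounds. -/
lemma bdK (h : ST ν T u p t₀ E) (hI : I.card = n + 1) (hR : 0 < R) (hδ0 : 0 ≤ δ) (hδ1 : δ ≤ 1)
    (hm : IntegrableOn m (Ioo t₀ T))
    (hin : ∀ᵐ τ ∂(volume.restrict (Ioo t₀ T)), InL I x₀ R ν δ (cw u τ) (p τ) (m τ))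
    {t₂ : ℝ} (ht₂ : t₂ ∈ Ioo t₀ T) :
    ∃ A : ℝ, 0 ≤ A ∧ ∀ s ∈ Ico t₂ T, ∀ T' : ℝ, s < T' → T' ≤ T + 1 →
      (√(T' - s)) ^ n * enW (cw u s) (kI I ν T' x₀ s) ≤ A ∧
      2 * δ * ((√(T' - s)) ^ n * ∫ τ in Ioc t₀ s, ν * dsW (cw u τ) (kI I ν T' x₀ τ)) ≤ A := by
  have hν := h.hν
  have hE := h.E0
  obtain ⟨C, hC, hen⟩ := en_K h hI hR hδ1 hm hin
  have hd : 0 < √(t₂ - t₀) := Real.sqrt_pos.2 (by linarith [ht₂.1])
  have hm0 : 0 ≤ ∫ τ in Ioo t₀ T, |m τ| := integral_nonneg fun _ => abs_nonneg _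
  have hF0 : 0 ≤ ∫ τ in Ioo t₀ T, (Fx u p τ).toReal := integral_nonneg fun _ => ENNReal.toReal_nonneg
  have hT0 : 0 < T := h.t0.trans h.tT
  refine ⟨(√(t₂ - t₀))⁻¹ * E + (2 * √(Real.pi * ν) * (∫ τ in Ioo t₀ T, |m τ|)
    + (T + 1) ^ n * (C * ∫ τ in Ioo t₀ T, (Fx u p τ).toReal)), by positivity, ?_⟩
  intro s hs T' hsT' hT'
  have hs' : s ∈ Ico t₀ T := ⟨ht₂.1.le.trans hs.1, hs.2⟩
  obtain ⟨i1, e⟩ := hen t₀ s T' le_rfl hs'.1 hs.2 hsT' hT'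
  obtain ⟨r, hr⟩ : ∃ r, r = √(T' - s) := ⟨_, rfl⟩
  have hr0 : 0 < r := by rw [hr]; exact Real.sqrt_pos.2 (by linarith)
  rw [← hr] at e ⊢
  have hD : 0 ≤ ∫ τ in Ioc t₀ s, ν * dsW (cw u τ) (kI I ν T' x₀ τ) :=
    integral_nonneg fun τ => mul_nonneg hν.le (dsW_nonneg fun x => kI_nonneg x)
  have hEs : 0 ≤ enW (cw u s) (kI I ν T' x₀ s) := enW_nonneg fun x => kI_nonneg x
  have hsub : Ioc t₀ s ⊆ Ioo t₀ T := fun τ hτ => ⟨hτ.1, hτ.2.trans_lt hs.2⟩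
  have h1 : ∫ τ in Ioc t₀ s, |m τ| ≤ ∫ τ in Ioo t₀ T, |m τ| :=
    setIntegral_mono_set hm.abs (Eventually.of_forall fun _ => abs_nonneg _) hsub.eventuallyLE
  have h2 : ∫ τ in Ioc t₀ s, (Fx u p τ).toReal ≤ ∫ τ in Ioo t₀ T, (Fx u p τ).toReal :=
    setIntegral_mono_set h.Fx_int (Eventually.of_forall fun _ => ENNReal.toReal_nonneg)
      hsub.eventuallyLE
  have h3 := enW_up (x₀ := x₀) h hI (T' := T') (τ := t₀) ⟨le_rfl, h.tT⟩ (hs'.1.trans_lt hsT')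
  have hq : 0 < √(T' - t₀) := Real.sqrt_pos.2 (by linarith [hs'.1])
  have hrq : r ≤ √(T' - t₀) := by
    rw [hr]
    exact Real.sqrt_le_sqrt (by linarith [hs'.1])
  have h4 : r ^ n * enW (cw u t₀) (kI I ν T' x₀ t₀) ≤ (√(t₂ - t₀))⁻¹ * E := by
    calc r ^ n * enW (cw u t₀) (kI I ν T' x₀ t₀)
        ≤ (√(T' - t₀)) ^ n * (((√(T' - t₀))⁻¹) ^ (n + 1) * E) :=
          mul_le_mul (pow_le_pow_left₀ hr0.le hrq n) h3 (enW_nonneg fun x => kI_nonneg x)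
            (by positivity)
      _ = (√(T' - t₀))⁻¹ * E := by
          rw [pow_succ, inv_pow]
          field_simp
      _ ≤ _ := by
          refine mul_le_mul_of_nonneg_right (inv_anti₀ hd (Real.sqrt_le_sqrt ?_)) hE
          linarith [hs.1]
  have h5 : r ^ n * (2 * √(Real.pi * ν) * ((r⁻¹) ^ n * ∫ τ in Ioc t₀ s, |m τ|))
      ≤ 2 * √(Real.pi * ν) * (∫ τ in Ioo t₀ T, |m τ|) := by
    calc r ^ n * (2 * √(Real.pi * ν) * ((r⁻¹) ^ n * ∫ τ in Ioc t₀ s, |m τ|))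
        = 2 * √(Real.pi * ν) * (∫ τ in Ioc t₀ s, |m τ|) := by
          rw [inv_pow]
          field_simp
      _ ≤ _ := mul_le_mul_of_nonneg_left h1 (by positivity)
  have hrT : r ≤ T + 1 := by
    rw [hr, Real.sqrt_le_left (by linarith)]
    have : T' - s ≤ T + 1 := by linarith [h.t0, hs'.1]
    nlinarith
  have h6 : r ^ n * (C * ∫ τ in Ioc t₀ s, (Fx u p τ).toReal)
      ≤ (T + 1) ^ n * (C * ∫ τ in Ioo t₀ T, (Fx u p τ).toReal) := by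
    refine mul_le_mul (pow_le_pow_left₀ hr0.le hrT n) (mul_le_mul_of_nonneg_left h2 hC) ?_
      (by positivity)
    exact mul_nonneg hC (integral_nonneg fun _ => ENNReal.toReal_nonneg)
  have h7 := mul_le_mul_of_nonneg_left e (pow_nonneg hr0.le n)
  have h8 : r ^ n * (enW (cw u s) (kI I ν T' x₀ s)
      + 2 * δ * ∫ τ in Ioc t₀ s, ν * dsW (cw u τ) (kI I ν T' x₀ τ))
      = r ^ n * enW (cw u s) (kI I ν T' x₀ s)
      + 2 * δ * (r ^ n * ∫ τ in Ioc t₀ s, ν * dsW (cw u τ) (kI I ν T' x₀ τ)) := by ring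
  have h9 : r ^ n * (enW (cw u t₀) (kI I ν T' x₀ t₀)
        + (2 * √(Real.pi * ν) * ((r⁻¹) ^ n * ∫ τ in Ioc t₀ s, |m τ|)
          + C * ∫ τ in Ioc t₀ s, (Fx u p τ).toReal))
      = r ^ n * enW (cw u t₀) (kI I ν T' x₀ t₀)
        + (r ^ n * (2 * √(Real.pi * ν) * ((r⁻¹) ^ n * ∫ τ in Ioc t₀ s, |m τ|))
          + r ^ n * (C * ∫ τ in Ioc t₀ s, (Fx u p τ).toReal)) := by ring
  rw [h8, h9] at h7
  have h10 : 0 ≤ r ^ n * enW (cw u s) (kI I ν T' x₀ s) := by positivity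
  have h11 : 0 ≤ 2 * δ * (r ^ n * ∫ τ in Ioc t₀ s, ν * dsW (cw u τ) (kI I ν T' x₀ τ)) := by
    positivity
  constructor <;> linarith

end

end Pool.Agent.H305.EF
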