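import Pool.Agent.H305.EF.Cut

/-!
The layer cake formula.
-/

set_option autoImplicit false

open MeasureTheory Set Metric Filter Topology
open scoped ContDiff ENNReal

namespace Pool.Agent.H305.EF

open H459R3.NS W221.NS Pool.Agent.V1183.PM Pool.Agent.H305.OS Pool.Agent.H305.SL Pool.Agent.H305.PL

section
variable {ν τ R M : ℝ} {d : V → ℝ} {J : V → ℝ}

/-- The layer cake inequality. -/
lemma cakeD (hd : Measurable d) (hd0 : ∀ x, 0 ≤ d x) (hν : 0 < ν) (hτ : 0 < τ) (hJ : Integrable J)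
    (h : ∀ ρ : ℝ, 0 < ρ → ∫ x in {x | d x < ρ}, J x ≤ M * ρ) :
    ∫ x, J x * gk ν τ (d x) ≤ M * √(Real.pi * ν) := by
  have hDm : ∀ ρ, MeasurableSet {x | d x < ρ} := fun ρ => measurableSet_lt hd measurable_const
  obtain ⟨S, hS⟩ : ∃ S : Set (V × ℝ), S = {z | d z.1 < z.2} := ⟨_, rfl⟩
  have hSm : MeasurableSet S := by
    rw [hS]
    exact measurableSet_lt (hd.comp measurable_fst) measurable_snd
  have hprod : Integrable (fun z : V × ℝ => J z.1 * kk ν τ z.2)
      ((volume : Measure V).prod (volume.restrict (Ioi (0 : ℝ)))) :=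
    hJ.mul_prod (kk_intOn hν hτ le_rfl)
  have hind : Integrable (Function.uncurry fun (x : V) (ρ : ℝ) =>
      S.indicator (fun z : V × ℝ => J z.1 * kk ν τ z.2) (x, ρ))
      ((volume : Measure V).prod (volume.restrict (Ioi (0 : ℝ)))) := hprod.indicator hSm
  have hsw := integral_integral_swap hind
  have e1 : ∀ x : V, ∫ ρ in Ioi (0 : ℝ), S.indicator (fun z : V × ℝ => J z.1 * kk ν τ z.2) (x, ρ)
      = J x * gk ν τ (d x) := by
    intro x
    have e2 : (fun ρ : ℝ => S.indicator (fun z : V × ℝ => J z.1 * kk ν τ z.2) (x, ρ))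
        = (Ioi (d x)).indicator fun ρ => J x * kk ν τ ρ := by
      funext ρ
      by_cases hρ : d x < ρ
      · rw [indicator_of_mem (by rw [hS]; exact hρ), indicator_of_mem (by exact hρ)]
      · rw [indicator_of_notMem (by rw [hS]; exact hρ), indicator_of_notMem (by exact hρ)]
    rw [e2, setIntegral_indicator measurableSet_Ioi, Ioi_inter_Ioi,
      sup_eq_right.2 (hd0 x), integral_const_mul, kk_int hν hτ (hd0 x)]
  have e3 : ∀ ρ ∈ Ioi (0 : ℝ), ∫ x, S.indicator (fun z : V × ℝ => J z.1 * kk ν τ z.2) (x, ρ)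
      = kk ν τ ρ * ∫ x in {x | d x < ρ}, J x := by
    intro ρ _
    have e4 : (fun x : V => S.indicator (fun z : V × ℝ => J z.1 * kk ν τ z.2) (x, ρ))
        = ({x | d x < ρ}).indicator fun x => kk ν τ ρ * J x := by
      funext x
      by_cases hx : d x < ρ
      · rw [indicator_of_mem (by rw [hS]; exact hx), indicator_of_mem (by exact hx), mul_comm]
      · rw [indicator_of_notMem (by rw [hS]; exact hx), indicator_of_notMem (by exact hx)]
    rw [e4, integral_indicator (hDm ρ), integral_const_mul]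
  have e5 : ∫ x, J x * gk ν τ (d x)
      = ∫ ρ in Ioi (0 : ℝ), kk ν τ ρ * ∫ x in {x | d x < ρ}, J x := by
    rw [← setIntegral_congr_fun measurableSet_Ioi e3, ← hsw]
    exact integral_congr_ae (Eventually.of_forall fun x => (e1 x).symm)
  rw [e5, ← kk1_int hν hτ, ← integral_const_mul]
  refine setIntegral_mono_on ?_ ((kk1_intOn hν hτ).const_mul M) measurableSet_Ioi fun ρ hρ => ?_
  · exact (hind.integral_prod_right).congr ((ae_restrict_iff' measurableSet_Ioi).2
      (Eventually.of_forall e3))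
  · calc kk ν τ ρ * ∫ x in {x | d x < ρ}, J x ≤ kk ν τ ρ * (M * ρ) :=
          mul_le_mul_of_nonneg_left (h ρ hρ) (kk_nonneg hν hτ (le_of_lt hρ))
      _ = M * (kk ν τ ρ * ρ) := by ring

/-- The weight with the cut-off. -/
noncomputable def gc (ν τ R ρ : ℝ) : ℝ := gk ν τ ρ * pf R ρ

/-- The density of the layer cake formula. -/
noncomputable def dn (ν τ R ρ : ℝ) : ℝ := kk ν τ ρ * pf R ρ - gk ν τ ρ * pf' R ρ

lemma dn_nonneg (hν : 0 < ν) (hτ : 0 < τ) {ρ : ℝ} (hρ : 0 ≤ ρ) : 0 ≤ dn ν τ R ρ := by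
  unfold dn
  have h1 := mul_nonneg (kk_nonneg hν hτ hρ) (pf_nonneg R ρ)
  have h2 := mul_nonneg (gk_nonneg ν τ ρ) (neg_nonneg.2 (pf'_nonpos (R := R) hρ))
  linarith

lemma gc_hd (ν τ R ρ : ℝ) : HasDerivAt (gc ν τ R) (-dn ν τ R ρ) ρ := by
  have h1 : HasDerivAt (gk ν τ) (-kk ν τ ρ) ρ := by
    have h2 := (gk_deriv ν τ ρ).neg
    have e : -(fun ρ => - gk ν τ ρ) = gk ν τ := by
      funext z
      simp
    rwa [e] at h2
  have h3 : HasDerivAt (fun ρ => gk ν τ ρ * pf R ρ) _ ρ := h1.mul (pf_hd R ρ)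
  refine h3.congr_deriv ?_
  unfold dn
  ring

lemma gk_cont (ν τ : ℝ) : Continuous (gk ν τ) := by
  unfold gk
  fun_prop

lemma gc_cont (ν τ R : ℝ) : Continuous (gc ν τ R) := (gk_cont ν τ).mul (pf_cont R)

lemma dn_cont (ν τ R : ℝ) : Continuous (dn ν τ R) := by
  have h1 : Continuous (kk ν τ) := by
    unfold kk
    exact (by fun_prop : Continuous fun ρ : ℝ => 2 * (1 / (4 * ν * τ)) * ρ).mul (gk_cont ν τ)
  exact (h1.mul (pf_cont R)).sub ((gk_cont ν τ).mul (pf'_cont R))

lemma gc_zero (hR : 0 < R) {ρ : ℝ} (h : R ≤ ρ) : gc ν τ R ρ = 0 := by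
  unfold gc
  rw [pf_zero hR h, mul_zero]

lemma dn_int (hR : 0 < R) {a : ℝ} (ha : a ≤ R) : ∫ ρ in Ioo a R, dn ν τ R ρ = gc ν τ R a := by
  rw [← integral_Ioc_eq_integral_Ioo, ← intervalIntegral.integral_of_le ha]
  have h1 := intervalIntegral.integral_eq_sub_of_hasDerivAt (a := a) (b := R)
    (f := gc ν τ R) (f' := fun ρ => -dn ν τ R ρ) (fun ρ _ => gc_hd ν τ R ρ)
    ((dn_cont ν τ R).neg.intervalIntegrable _ _)
  rw [intervalIntegral.integral_neg, gc_zero hR le_rfl] at h1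
  linarith

lemma gk_int1 (hν : 0 < ν) (hτ : 0 < τ) : IntegrableOn (gk ν τ) (Ioi 0) ∧
    ∫ ρ in Ioi 0, gk ν τ ρ = √(Real.pi * ν) := by
  have hb : 0 < 1 / (4 * ν * τ) := by positivity
  constructor
  · unfold gk
    exact ((integrable_exp_neg_mul_sq hb).const_mul _).integrableOn
  · unfold gk
    rw [integral_const_mul, integral_gaussian_Ioi]
    have hs : 0 < √τ := Real.sqrt_pos.2 hτ
    have e3 : √(Real.pi / (1 / (4 * ν * τ))) = 2 * √(Real.pi * ν) * √τ := by
      rw [show Real.pi / (1 / (4 * ν * τ)) = 2 ^ 2 * (Real.pi * ν) * τ by field_simp; ring,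
        Real.sqrt_mul (by positivity), Real.sqrt_mul (by positivity), Real.sqrt_sq (by norm_num)]
    rw [e3]
    field_simp

lemma dn1_int (hν : 0 < ν) (hτ : 0 < τ) (hR : 0 < R) :
    ∫ ρ in Ioo 0 R, dn ν τ R ρ * ρ ≤ √(Real.pi * ν) := by
  have i1 : IntervalIntegrable (fun ρ => gc ν τ R ρ) volume 0 R :=
    (gc_cont ν τ R).intervalIntegrable _ _
  have i2 : IntervalIntegrable (fun ρ => dn ν τ R ρ * ρ) volume 0 R :=
    ((dn_cont ν τ R).mul continuous_id).intervalIntegrable _ _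
  have h1 := intervalIntegral.integral_eq_sub_of_hasDerivAt (a := 0) (b := R)
    (f := fun ρ => ρ * gc ν τ R ρ) (f' := fun ρ => gc ν τ R ρ - dn ν τ R ρ * ρ)
    (fun ρ _ => by
      have := (hasDerivAt_id ρ).mul (gc_hd ν τ R ρ)
      refine this.congr_deriv ?_
      simp only [id]
      ring) (i1.sub i2)
  simp only [zero_mul, sub_zero, gc_zero hR le_rfl, mul_zero] at h1
  rw [intervalIntegral.integral_sub i1 i2] at h1
  rw [← integral_Ioc_eq_integral_Ioo, ← intervalIntegral.integral_of_le hR.le]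
  have h2 : ∫ ρ in (0 : ℝ)..R, gc ν τ R ρ ≤ √(Real.pi * ν) := by
    obtain ⟨i1, e2⟩ := gk_int1 (ν := ν) (τ := τ) hν hτ
    rw [intervalIntegral.integral_of_le hR.le, ← e2]
    refine le_trans (setIntegral_mono_on ((gc_cont ν τ R).continuousOn.integrableOn_Icc.mono_set
      Ioc_subset_Icc_self) (i1.mono_set Ioc_subset_Ioi_self) measurableSet_Ioc fun ρ _ => ?_)
      (setIntegral_mono_set i1 (Eventually.of_forall fun ρ => gk_nonneg ν τ ρ)
        Ioc_subset_Ioi_self.eventuallyLE)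
    unfold gc
    exact mul_le_of_le_one_right (gk_nonneg ν τ ρ) (pf_le R ρ)
  linarith

/-- The local layer cake inequality. -/
lemma cakeL (hd : Measurable d) (hd0 : ∀ x, 0 ≤ d x) (hν : 0 < ν) (hτ : 0 < τ) (hR : 0 < R)
    (hM : 0 ≤ M) (hJ : Integrable J)
    (h : ∀ ρ : ℝ, 0 < ρ → ρ < R → ∫ x in {x | d x < ρ}, J x ≤ M * ρ) :
    ∫ x, J x * gc ν τ R (d x) ≤ M * √(Real.pi * ν) := by
  have hDm : ∀ ρ, MeasurableSet {x | d x < ρ} := fun ρ => measurableSet_lt hd measurable_const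
  obtain ⟨S, hS⟩ : ∃ S : Set (V × ℝ), S = {z | d z.1 < z.2} := ⟨_, rfl⟩
  have hSm : MeasurableSet S := by
    rw [hS]
    exact measurableSet_lt (hd.comp measurable_fst) measurable_snd
  have hdn : IntegrableOn (dn ν τ R) (Ioo 0 R) :=
    (dn_cont ν τ R).continuousOn.integrableOn_Icc.mono_set Ioo_subset_Icc_self
  have hdn1 : IntegrableOn (fun ρ => dn ν τ R ρ * ρ) (Ioo 0 R) :=
    ((dn_cont ν τ R).mul continuous_id).continuousOn.integrableOn_Icc.mono_set Ioo_subset_Icc_self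
  have hprod : Integrable (fun z : V × ℝ => J z.1 * dn ν τ R z.2)
      ((volume : Measure V).prod (volume.restrict (Ioo (0 : ℝ) R))) :=
    hJ.mul_prod hdn
  have hind : Integrable (Function.uncurry fun (x : V) (ρ : ℝ) =>
      S.indicator (fun z : V × ℝ => J z.1 * dn ν τ R z.2) (x, ρ))
      ((volume : Measure V).prod (volume.restrict (Ioo (0 : ℝ) R))) := hprod.indicator hSm
  have hsw := integral_integral_swap hind
  have e1 : ∀ x : V, ∫ ρ in Ioo (0 : ℝ) R, S.indicator (fun z : V × ℝ => J z.1 * dn ν τ R z.2) (x, ρ)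
      = J x * gc ν τ R (d x) := by
    intro x
    have e2 : (fun ρ : ℝ => S.indicator (fun z : V × ℝ => J z.1 * dn ν τ R z.2) (x, ρ))
        = (Ioi (d x)).indicator fun ρ => J x * dn ν τ R ρ := by
      funext ρ
      by_cases hρ : d x < ρ
      · rw [indicator_of_mem (by rw [hS]; exact hρ), indicator_of_mem (by exact hρ)]
      · rw [indicator_of_notMem (by rw [hS]; exact hρ), indicator_of_notMem (by exact hρ)]
    have e6 : Ioo 0 R ∩ Ioi (d x) = Ioo (d x) R := by
      ext ρ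
      simp only [mem_inter_iff, mem_Ioo, mem_Ioi]
      constructor
      · rintro ⟨⟨_, h2⟩, h3⟩
        exact ⟨h3, h2⟩
      · rintro ⟨h1, h2⟩
        exact ⟨⟨(hd0 x).trans_lt h1, h2⟩, h1⟩
    rw [e2, setIntegral_indicator measurableSet_Ioi, e6, integral_const_mul]
    congr 1
    rcases le_or_gt (d x) R with h1 | h1
    · exact dn_int hR h1
    · rw [Ioo_eq_empty (not_lt.2 h1.le), gc_zero hR h1.le]
      simp
  have e3 : ∀ ρ ∈ Ioo (0 : ℝ) R, ∫ x, S.indicator (fun z : V × ℝ => J z.1 * dn ν τ R z.2) (x, ρ)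
      = dn ν τ R ρ * ∫ x in {x | d x < ρ}, J x := by
    intro ρ _
    have e4 : (fun x : V => S.indicator (fun z : V × ℝ => J z.1 * dn ν τ R z.2) (x, ρ))
        = ({x | d x < ρ}).indicator fun x => dn ν τ R ρ * J x := by
      funext x
      by_cases hx : d x < ρ
      · rw [indicator_of_mem (by rw [hS]; exact hx), indicator_of_mem (by exact hx), mul_comm]
      · rw [indicator_of_notMem (by rw [hS]; exact hx), indicator_of_notMem (by exact hx)]
    rw [e4, integral_indicator (hDm ρ), integral_const_mul]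
  have e5 : ∫ x, J x * gc ν τ R (d x)
      = ∫ ρ in Ioo (0 : ℝ) R, dn ν τ R ρ * ∫ x in {x | d x < ρ}, J x := by
    rw [← setIntegral_congr_fun measurableSet_Ioo e3, ← hsw]
    exact integral_congr_ae (Eventually.of_forall fun x => (e1 x).symm)
  rw [e5]
  refine le_trans ?_ (mul_le_mul_of_nonneg_left (dn1_int (ν := ν) (τ := τ) hν hτ hR) hM)
  rw [← integral_const_mul]
  refine setIntegral_mono_on ?_ (hdn1.const_mul M) measurableSet_Ioo fun ρ hρ => ?_
  · exact (hind.integral_prod_right).congr ((ae_restrict_iff' measurableSet_Ioo).2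
      (Eventually.of_forall e3))
  · calc dn ν τ R ρ * ∫ x in {x | d x < ρ}, J x ≤ dn ν τ R ρ * (M * ρ) :=
          mul_le_mul_of_nonneg_left (h ρ hρ.1 hρ.2) (dn_nonneg hν hτ (le_of_lt hρ.1))
      _ = M * (dn ν τ R ρ * ρ) := by ring

end

end Pool.Agent.H305.EF
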