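import Pool.Agent.H305.EF.Krn

/-!
The cut-off.
-/

set_option autoImplicit false

open MeasureTheory Set Metric Filter Topology
open scoped ContDiff ENNReal

namespace Pool.Agent.H305.EF

open H459R3.NS W221.NS Pool.Agent.V1183.PM Pool.Agent.H305.OS Pool.Agent.H305.SL Pool.Agent.H305.PL
open Pool.Agent.W583.MD (sm_pd pd_mul')
open Pool.Agent.H305.TI (it it_nil it_cons it_sm)

/-- The profile of the cut-off. -/
noncomputable def pf (R ρ : ℝ) : ℝ := Real.smoothTransition ((4 - 4 * ρ ^ 2 / R ^ 2) / 3)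

/-- The derivative of the profile. -/
noncomputable def pf' (R ρ : ℝ) : ℝ :=
  deriv Real.smoothTransition ((4 - 4 * ρ ^ 2 / R ^ 2) / 3) * (-(8 * ρ / R ^ 2) / 3)

/-- The cut-off. -/
noncomputable def chi (I : Finset (Fin 3)) (x₀ : V) (R : ℝ) (x : V) : ℝ :=
  Real.smoothTransition ((4 - 4 * qI I x₀ x / R ^ 2) / 3)

section
variable {I : Finset (Fin 3)} {ρ R : ℝ} {x₀ x : V} {c : Fin 3}

lemma pf_nonneg (R ρ : ℝ) : 0 ≤ pf R ρ := Real.smoothTransition.nonneg _
lemma pf_le (R ρ : ℝ) : pf R ρ ≤ 1 := Real.smoothTransition.le_one _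

lemma chi_pf (I : Finset (Fin 3)) (x₀ : V) (R : ℝ) (x : V) : chi I x₀ R x = pf R (dI I x₀ x) := by
  unfold chi pf
  rw [dI_sq]

lemma chi_nonneg (x : V) : 0 ≤ chi I x₀ R x := Real.smoothTransition.nonneg _
lemma chi_le (x : V) : chi I x₀ R x ≤ 1 := Real.smoothTransition.le_one _

lemma pf_zero (hR : 0 < R) (h : R ≤ ρ) : pf R ρ = 0 := by
  apply Real.smoothTransition.zero_of_nonpos
  have h1 : 4 ≤ 4 * ρ ^ 2 / R ^ 2 := by
    rw [le_div_iff₀ (by positivity)]
    nlinarith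
  linarith

lemma pf_one (hR : 0 < R) (h0 : 0 ≤ ρ) (h : ρ ≤ R / 2) : pf R ρ = 1 := by
  apply Real.smoothTransition.one_of_one_le
  have h1 : 4 * ρ ^ 2 / R ^ 2 ≤ 1 := by
    rw [div_le_iff₀ (by positivity)]
    nlinarith
  linarith

lemma pf_hd (R ρ : ℝ) : HasDerivAt (pf R) (pf' R ρ) ρ := by
  have h1 : HasDerivAt (fun ρ : ℝ => (4 - 4 * ρ ^ 2 / R ^ 2) / 3) (-(8 * ρ / R ^ 2) / 3) ρ := by
    have h2 := (((hasDerivAt_pow 2 ρ).const_mul 4).div_const (R ^ 2)).const_sub 4 |>.div_const 3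
    refine h2.congr_deriv ?_
    norm_num
    ring
  have h3 : DifferentiableAt ℝ Real.smoothTransition ((4 - 4 * ρ ^ 2 / R ^ 2) / 3) :=
    (Real.smoothTransition.contDiff (n := 1)).differentiable (by norm_num) _
  exact h3.hasDerivAt.comp ρ h1

lemma pf'_nonpos (h : 0 ≤ ρ) : pf' R ρ ≤ 0 := by
  unfold pf'
  have h1 : 0 ≤ deriv Real.smoothTransition ((4 - 4 * ρ ^ 2 / R ^ 2) / 3) :=
    Real.smoothTransition.monotone.deriv_nonneg
  have h2 : -(8 * ρ / R ^ 2) / 3 ≤ 0 := by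
    have : 0 ≤ 8 * ρ / R ^ 2 := by positivity
    linarith
  exact mul_nonpos_of_nonneg_of_nonpos h1 h2

lemma pf_cont (R : ℝ) : Continuous (pf R) := by
  unfold pf
  exact Real.smoothTransition.continuous.comp (by fun_prop)

lemma pf'_cont (R : ℝ) : Continuous (pf' R) := by
  unfold pf'
  have h1 : Continuous (deriv Real.smoothTransition) :=
    (Real.smoothTransition.contDiff (n := 1)).continuous_deriv (by norm_num)
  exact (h1.comp (by fun_prop)).mul (by fun_prop)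

lemma chi_one (hR : 0 < R) (h : dI I x₀ x ≤ R / 2) : chi I x₀ R x = 1 := by
  rw [chi_pf]
  exact pf_one hR (dI_nonneg _ _ _) h

lemma chi_zero (hR : 0 < R) (h : R ≤ dI I x₀ x) : chi I x₀ R x = 0 := by
  rw [chi_pf]
  exact pf_zero hR h

lemma chi_sm (I : Finset (Fin 3)) (x₀ : V) (R : ℝ) : ContDiff ℝ ∞ (chi I x₀ R) := by
  unfold chi
  refine Real.smoothTransition.contDiff.comp ?_
  unfold qI
  fun_prop

lemma lin_bd (M : Matrix (Fin 3) (Fin 3) ℝ) (l : List (Fin 3)) : ∀ {K : V → ℝ}, ContDiff ℝ ∞ K →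
    HasCompactSupport K → ∃ C : ℝ, 0 ≤ C ∧ ∀ x : V, |it l (fun x => K (lm M x)) x| ≤ C := by
  induction l with
  | nil =>
    intro K hK hc
    obtain ⟨C, hC⟩ := hK.continuous.bounded_above_of_compact_support hc
    exact ⟨max C 0, le_max_right _ _, fun y => (hC _).trans (le_max_left _ _)⟩
  | cons i l ih =>
    intro K hK hc
    have h1 : ∀ k, ∃ C : ℝ, 0 ≤ C ∧ ∀ x : V, |it l (fun x => H459R3.NS.pd k K (lm M x)) x| ≤ C :=
      fun k => ih (sm_pd hK k) (pd_cs hc k)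
    choose C hC0 hC using h1
    refine ⟨∑ k, |M k i| * C k, Finset.sum_nonneg fun k _ => mul_nonneg (abs_nonneg _) (hC0 k),
      fun x => ?_⟩
    have hs : ∀ k, ContDiff ℝ ∞ fun x => H459R3.NS.pd k K (lm M x) := fun k => sm_lin (sm_pd hK k) M
    rw [it_cons, pd_lin hK, it_sum l (f := fun k x => M k i * H459R3.NS.pd k K (lm M x))
      (fun k => contDiff_const.mul (hs k))]
    refine (Finset.abs_sum_le_sum_abs _ _).trans (Finset.sum_le_sum fun k _ => ?_)
    rw [it_cmul l (M k i) (hs k), abs_mul]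
    exact mul_le_mul_of_nonneg_left (hC k x) (abs_nonneg _)

lemma lin_BF (M : Matrix (Fin 3) (Fin 3) ℝ) {K : V → ℝ} (hK : ContDiff ℝ ∞ K)
    (hc : HasCompactSupport K) : BF fun x => K (lm M x) := by
  refine ⟨fun _ _ => sm_lin hK M, fun l => ?_⟩
  obtain ⟨C, hC, h1⟩ := lin_bd M l hK hc
  exact ⟨C, hC, fun _ _ => h1⟩

lemma chi_BF (hR : 0 < R) : BF (chi I x₀ R) := by
  obtain ⟨b, hb⟩ : ∃ b : V, b = fun i => if i ∈ I then x₀ i else 0 := ⟨_, rfl⟩
  obtain ⟨K, hK⟩ : ∃ K : V → ℝ, K = chi Finset.univ b R := ⟨_, rfl⟩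
  have hKs : ContDiff ℝ ∞ K := by rw [hK]; exact chi_sm _ _ _
  have hKc : HasCompactSupport K := by
    apply HasCompactSupport.of_support_subset_isCompact (isCompact_closedBall b R)
    intro z hz
    by_contra h
    apply hz
    rw [hK]
    apply chi_zero hR
    rw [mem_closedBall, dist_pi_le_iff hR.le] at h
    push Not at h
    obtain ⟨i, hi⟩ := h
    rw [Real.dist_eq] at hi
    exact hi.le.trans (abs_le_dI (Finset.mem_univ i))
  obtain ⟨M, hM⟩ : ∃ M : Matrix (Fin 3) (Fin 3) ℝ, M = Matrix.diagonal fun i => if i ∈ I then 1 else 0 :=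
    ⟨_, rfl⟩
  have hlm : ∀ x i, lm M x i = if i ∈ I then x i else 0 := by
    intro x i
    rw [lm_apply, hM]
    simp [Matrix.diagonal_apply]
  have e : chi I x₀ R = fun x => K (lm M x) := by
    funext x
    rw [hK]
    unfold chi
    have e1 : qI I x₀ x = qI Finset.univ b (lm M x) := by
      unfold qI
      rw [← Finset.sum_subset (Finset.subset_univ I)]
      · refine Finset.sum_congr rfl fun i hi => ?_
        rw [hlm, hb]
        simp only [if_pos hi]
      · intro i _ hi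
        rw [hlm, hb]
        simp only [if_neg hi]
        norm_num
    rw [e1]
  rw [e]
  exact lin_BF M hKs hKc

lemma chi_pd_zero (hR : 0 < R) (j : Fin 3) (h : dI I x₀ x < R / 2) :
    H459R3.NS.pd j (chi I x₀ R) x = 0 := by
  have ho : IsOpen {x : V | dI I x₀ x < R / 2} := isOpen_lt (dI_cont I x₀) continuous_const
  rw [pd_loc (g := fun _ => 1) ho (fun y hy => chi_one hR (le_of_lt hy)) j h]
  exact pd_one j x

end

end Pool.Agent.H305.EF
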