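import Pool.Agent.H305.EF.Ffx

/-!
The energy inequality with the backward heat kernel.
-/

set_option autoImplicit false

open MeasureTheory Set Metric Filter Topology
open scoped ContDiff ENNReal

namespace Pool.Agent.H305.EF

open H459R3.NS W221.NS Pool.Agent.V1183.PM Pool.Agent.H305.OS Pool.Agent.H305.SL Pool.Agent.H305.PL
open Pool.Agent.W583.MD (sm_pd pd_mul')

/-- The condition on the inflow at one time. -/
def InL (I : Finset (Fin 3)) (x₀ : V) (R ν δ : ℝ) (w : Fin 3 → V → ℝ) (q : V → ℝ) (M : ℝ) : Prop :=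
  ∀ ρ : ℝ, 0 < ρ → ρ < R → -(∫ x in nb I x₀ ρ, wk w q x)
    ≤ (1 - δ) * (ν * ∫ x in nb I x₀ ρ, gw w x) + M * ρ

/-- The total flux. -/
noncomputable def Fx (u : ℝ → V → V) (p : ℝ → V → ℝ) (τ : ℝ) : ℝ≥0∞ :=
  ∑ j, gF (cw u τ) (p τ) (cw u τ j)

section
variable {I : Finset (Fin 3)} {ν T T' τ R δ M s t₁ : ℝ} {x₀ : V} {w : Fin 3 → V → ℝ} {q : V → ℝ}
  {u : ℝ → V → V} {p : ℝ → V → ℝ} {m : ℝ → ℝ} {n : ℕ}

lemma wkB_int {Φ : V → ℝ} (hw : ∀ i, HF (w i)) (hq : HF q) (hΦ : BF Φ) :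
    Integrable fun x => wk w q x * Φ x := by
  unfold wk
  simp only [Finset.sum_mul, add_mul]
  refine integrable_finsetSum _ fun i _ => Integrable.add ?_ ?_
  · exact ((nl_HF hw i).ip_int (SL.HF.mulB (hw i) hΦ)).congr
      (Eventually.of_forall fun x => by simp only; ring)
  · exact ((hq.pd i).ip_int (SL.HF.mulB (hw i) hΦ)).congr
      (Eventually.of_forall fun x => by simp only; ring)

lemma gwB_int {Φ : V → ℝ} (hw : ∀ i, HF (w i)) (hΦ : BF Φ) :
    Integrable fun x => gw w x * Φ x := by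
  unfold gw
  simp only [Finset.sum_mul]
  exact integrable_finsetSum _ fun i _ => integrable_finsetSum _ fun k _ => sqB_int ((hw i).pd k) hΦ

lemma kI_BF (hν : 0 < ν) (hτ : τ < T') : BF (kI I ν T' x₀ τ) :=
  UB.at (kI_ub (s := τ) (t := τ) hν le_rfl hτ I) ⟨le_rfl, le_rfl⟩

/-- The flux inequality. -/
lemma flW_InL (hI : I.card = n + 1) (hν : 0 < ν) (hR : 0 < R) (hδ : δ ≤ 1) (hτ : τ < T')
    {C : ℝ} (hC : 0 ≤ C)
    (hfar : ∀ (j : Fin 3) (x : V),
      |H459R3.NS.pd j (fun x => kI I ν T' x₀ τ x * (1 - chi I x₀ R x)) x| ≤ C)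
    (hw : ∀ i, HF (w i)) (hdiv : ∀ x, ∑ i, H459R3.NS.pd i (w i) x = 0) (hq : HF q)
    (hF : ∑ j, gF w q (w j) ≠ (⊤ : ℝ≥0∞)) (h : InL I x₀ R ν δ w q M) :
    flW w q (kI I ν T' x₀ τ) ≤ 2 * ((1 - δ) * (ν * dsW w (kI I ν T' x₀ τ)))
      + (2 * √(Real.pi * ν) * (((√(T' - τ))⁻¹) ^ n * |M|) + C * (∑ j, gF w q (w j)).toReal) := by
  have ha : 0 < T' - τ := by linarith
  have hΦ : BF (kI I ν T' x₀ τ) := kI_BF hν hτ
  have hc : BF (chi I x₀ R) := chi_BF hR
  have h1c : BF fun x => 1 - chi I x₀ R x := by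
    have h1 : UB univ fun (_ : ℝ) (x : V) => (-1 : ℝ) * chi I x₀ R x := UB.cmul hc (-1)
    have h2 : UB univ fun (_ : ℝ) (x : V) => (1 : ℝ) + (-1 : ℝ) * chi I x₀ R x := (UB.const 1).add h1
    refine h2.congr fun _ _ => ?_
    funext x
    ring
  have hΦ1 : BF fun x => kI I ν T' x₀ τ x * chi I x₀ R x := UB.mul hΦ hc
  have hΦ2 : BF fun x => kI I ν T' x₀ τ x * (1 - chi I x₀ R x) := UB.mul hΦ h1c
  have s1 : flW w q (kI I ν T' x₀ τ) = -(2 * ∫ x, wk w q x * (kI I ν T' x₀ τ x * chi I x₀ R x))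
      + flW w q (fun x => kI I ν T' x₀ τ x * (1 - chi I x₀ R x)) := by
    rw [flW_wk hw hdiv hq hΦ, flW_wk hw hdiv hq hΦ2]
    have e1 : ∫ x, wk w q x * kI I ν T' x₀ τ x
        = (∫ x, wk w q x * (kI I ν T' x₀ τ x * chi I x₀ R x))
          + ∫ x, wk w q x * (kI I ν T' x₀ τ x * (1 - chi I x₀ R x)) := by
      rw [← integral_add (wkB_int hw hq hΦ1) (wkB_int hw hq hΦ2)]
      congr 1
      funext x
      ring
    rw [e1]
    ring
  have s2 : flW w q (fun x => kI I ν T' x₀ τ x * (1 - chi I x₀ R x))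
      ≤ C * (∑ j, gF w q (w j)).toReal := by
    have h1 := fl_far (w := w) (q := q) hC hfar (fun i => (hw i).sm.continuous.measurable)
      hq.sm.continuous.measurable
    refine (le_abs_self _).trans ?_
    rw [← ENNReal.ofReal_le_ofReal_iff (by positivity), ENNReal.ofReal_mul hC,
      ENNReal.ofReal_toReal hF]
    exact h1
  obtain ⟨J, hJ⟩ : ∃ J : V → ℝ, J = fun x => -wk w q x - (1 - δ) * ν * gw w x := ⟨_, rfl⟩
  have i1 := wk_int hw hq
  have i2 := gw_int hw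
  have iJ : Integrable J := by
    rw [hJ]
    exact i1.neg.sub (i2.const_mul _)
  have hcd : ∀ ρ : ℝ, 0 < ρ → ρ < R → ∫ x in {x | dI I x₀ x < ρ}, J x ≤ |M| * ρ := by
    intro ρ hρ hρR
    have h1 := h ρ hρ hρR
    have e1 : ∫ x in {x | dI I x₀ x < ρ}, J x = -(∫ x in nb I x₀ ρ, wk w q x)
        - (1 - δ) * ν * ∫ x in nb I x₀ ρ, gw w x := by
      have a1 : Integrable (fun x => -wk w q x) (volume.restrict (nb I x₀ ρ)) :=
        i1.neg.integrableOn
      rw [hJ]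
      simp only
      rw [show {x | dI I x₀ x < ρ} = nb I x₀ ρ from rfl,
        integral_sub a1 (i2.const_mul _).integrableOn, integral_const_mul, integral_neg]
    rw [e1]
    have h2 : M * ρ ≤ |M| * ρ := mul_le_mul_of_nonneg_right (le_abs_self M) hρ.le
    linarith
  have h2 := cakeL (d := dI I x₀) (dI_cont I x₀).measurable (dI_nonneg I x₀) hν ha hR (abs_nonneg M)
    iJ hcd
  have e2 : ∀ x, kI I ν T' x₀ τ x * chi I x₀ R x
      = ((√(T' - τ))⁻¹) ^ n * gc ν (T' - τ) R (dI I x₀ x) := by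
    intro x
    rw [kI_gk hI, chi_pf]
    unfold gc
    ring
  have h3 : ∫ x, J x * (kI I ν T' x₀ τ x * chi I x₀ R x)
      ≤ ((√(T' - τ))⁻¹) ^ n * (|M| * √(Real.pi * ν)) := by
    have e3 : ∫ x, J x * (kI I ν T' x₀ τ x * chi I x₀ R x)
        = ((√(T' - τ))⁻¹) ^ n * ∫ x, J x * gc ν (T' - τ) R (dI I x₀ x) := by
      rw [← integral_const_mul]
      congr 1
      funext x
      rw [e2]
      ring
    rw [e3]
    exact mul_le_mul_of_nonneg_left h2 (by positivity)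
  have e4 : ∫ x, J x * (kI I ν T' x₀ τ x * chi I x₀ R x)
      = -(∫ x, wk w q x * (kI I ν T' x₀ τ x * chi I x₀ R x))
      - (1 - δ) * ν * ∫ x, gw w x * (kI I ν T' x₀ τ x * chi I x₀ R x) := by
    have e3 : (fun x => J x * (kI I ν T' x₀ τ x * chi I x₀ R x)) = fun x =>
        -(wk w q x * (kI I ν T' x₀ τ x * chi I x₀ R x))
          - (1 - δ) * ν * (gw w x * (kI I ν T' x₀ τ x * chi I x₀ R x)) := by
      funext x
      rw [hJ]
      simp only
      ring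
    have a1 : Integrable (fun x => -(wk w q x * (kI I ν T' x₀ τ x * chi I x₀ R x))) :=
      (wkB_int hw hq hΦ1).neg
    rw [e3, integral_sub a1 ((gwB_int hw hΦ1).const_mul _), integral_neg, integral_const_mul]
  have h5 : ∫ x, gw w x * (kI I ν T' x₀ τ x * chi I x₀ R x) ≤ dsW w (kI I ν T' x₀ τ) := by
    refine integral_mono (gwB_int hw hΦ1) (gwB_int hw hΦ) fun x => ?_
    refine mul_le_mul_of_nonneg_left ?_ (gw_nonneg w x)
    exact mul_le_of_le_one_right (kI_nonneg x) (chi_le x)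
  have h6 : (1 - δ) * ν * ∫ x, gw w x * (kI I ν T' x₀ τ x * chi I x₀ R x)
      ≤ (1 - δ) * ν * dsW w (kI I ν T' x₀ τ) :=
    mul_le_mul_of_nonneg_left h5 (mul_nonneg (by linarith) hν.le)
  rw [e4] at h3
  rw [s1]
  have e7 : 2 * √(Real.pi * ν) * (((√(T' - τ))⁻¹) ^ n * |M|)
      = 2 * (((√(T' - τ))⁻¹) ^ n * (|M| * √(Real.pi * ν))) := by ring
  rw [e7]
  linarith

/-- The energy identity for the backward heat kernel. -/
lemma gidK (h : HS ν T u p) (ht₁ : 0 < t₁) (hts : t₁ ≤ s) (hs : s < T) (hT' : s < T')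
    (I : Finset (Fin 3)) (x₀ : V) :
    IntegrableOn (fun τ => ν * dsW (cw u τ) (kI I ν T' x₀ τ)) (Ioc t₁ s) ∧
    IntegrableOn (fun τ => flW (cw u τ) (p τ) (kI I ν T' x₀ τ)) (Ioc t₁ s) ∧
    enW (cw u s) (kI I ν T' x₀ s) = enW (cw u t₁) (kI I ν T' x₀ t₁)
      + ∫ τ in Ioc t₁ s, (flW (cw u τ) (p τ) (kI I ν T' x₀ τ)
        - 2 * (ν * dsW (cw u τ) (kI I ν T' x₀ τ))) := by
  have hν := h.hν
  obtain ⟨T₁, hT₁⟩ : ∃ T₁, T₁ = min T T' := ⟨_, rfl⟩
  have hsT₁ : s < T₁ := by rw [hT₁]; exact lt_min hs hT'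
  have h1 : HS ν T₁ u p := HS_mono h (by rw [hT₁]; exact min_le_left _ _)
  have jG : J T₁ (kI I ν T' x₀) := kI_j hν (by rw [hT₁]; exact min_le_right _ _) I
  have hG : UB (Icc t₁ s) (kI I ν T' x₀) := kI_ub hν hts hT' I
  have hlp : UB (Icc t₁ s) (fun τ => lp (kI I ν T' x₀ τ)) := by
    unfold OS.lp
    exact UB.sum fun k => (hG.pd k).pd k
  have hd : ∀ τ ∈ Icc t₁ s, ∀ x, deriv (fun r => kI I ν T' x₀ r x) τ
      = -(ν * lp (kI I ν T' x₀ τ) x) := by
    intro τ hτ x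
    exact kI_heat hν (hτ.2.trans_lt hT') x I
  have hΨ' : UB (Icc t₁ s) (fun τ x => deriv (fun r => kI I ν T' x₀ r x) τ) := by
    refine (hlp.cmul (-ν)).congr fun τ hτ => ?_
    funext x
    rw [hd τ hτ x]
    ring
  have key := wid h1 ht₁ hts hsT₁ jG hG hΨ'
  have hI : ∀ τ ∈ Icc t₁ s, τ ∈ Ioo 0 T₁ := fun τ hτ => ⟨ht₁.trans_le hτ.1, hτ.2.trans_lt hsT₁⟩
  have e1 : ∀ τ ∈ Icc t₁ s, ν * enW (cw u τ) (lp (kI I ν T' x₀ τ))
      + enW (cw u τ) (fun x => deriv (fun r => kI I ν T' x₀ r x) τ) = 0 := by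
    intro τ hτ
    unfold enW
    rw [← integral_const_mul]
    have e2 : ∫ x, (∑ i, cw u τ i x ^ 2) * deriv (fun r => kI I ν T' x₀ r x) τ
        = -∫ x, ν * ((∑ i, cw u τ i x ^ 2) * lp (kI I ν T' x₀ τ) x) := by
      rw [← integral_neg]
      congr 1
      funext x
      rw [hd τ hτ x]
      ring
    rw [e2]
    ring
  have e2 : ∀ τ ∈ Ioc t₁ s, - (2 * ν * dsW (cw u τ) (kI I ν T' x₀ τ))
      + ν * enW (cw u τ) (lp (kI I ν T' x₀ τ))
      + flW (cw u τ) (p τ) (kI I ν T' x₀ τ)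
      + enW (cw u τ) (fun x => deriv (fun r => kI I ν T' x₀ r x) τ)
      = flW (cw u τ) (p τ) (kI I ν T' x₀ τ) - 2 * (ν * dsW (cw u τ) (kI I ν T' x₀ τ)) := by
    intro τ hτ
    have := e1 τ (Ioc_subset_Icc_self hτ)
    linarith
  have i1 := key.1.congr_fun e2 measurableSet_Ioc
  have i2 : IntegrableOn (fun τ => ν * dsW (cw u τ) (kI I ν T' x₀ τ)) (Ioc t₁ s) := by
    have e3 : ∀ τ ∈ Ioc t₁ s, ∑ i, ∑ k, ip (H459R3.NS.pd k (cw u τ i))
        (fun x => H459R3.NS.pd k (cw u τ i) x * kI I ν T' x₀ τ x)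
        = dsW (cw u τ) (kI I ν T' x₀ τ) := by
      intro τ hτ
      have hτ' := Ioc_subset_Icc_self hτ
      have hw : ∀ i, HF (cw u τ i) := fun i => h1.cw_HF (hI τ hτ') i
      have i4 : ∀ i k, Integrable fun x => H459R3.NS.pd k (cw u τ i) x ^ 2 * kI I ν T' x₀ τ x :=
        fun i k => sqB_int ((hw i).pd k) (hG.at hτ')
      have e4 : ∀ i k, ip (H459R3.NS.pd k (cw u τ i))
          (fun x => H459R3.NS.pd k (cw u τ i) x * kI I ν T' x₀ τ x)
          = ∫ x, H459R3.NS.pd k (cw u τ i) x ^ 2 * kI I ν T' x₀ τ x := by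
        intro i k
        unfold ip
        congr 1
        funext x
        ring
      unfold dsW
      simp only [e4]
      have : ∀ i, ∑ k, ∫ x, H459R3.NS.pd k (cw u τ i) x ^ 2 * kI I ν T' x₀ τ x
          = ∫ x, ∑ k, H459R3.NS.pd k (cw u τ i) x ^ 2 * kI I ν T' x₀ τ x :=
        fun i => (sum_int3 fun k => i4 i k).symm
      simp only [this]
      rw [← sum_int3 fun i => integrable_finsetSum _ fun k _ => i4 i k]
      congr 1
      funext x
      simp only [Finset.sum_mul]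
    have i5 : IntegrableOn (fun τ => ∑ i, ∑ k, ip (H459R3.NS.pd k (cw u τ i))
        (fun x => H459R3.NS.pd k (cw u τ i) x * kI I ν T' x₀ τ x)) (Ioc t₁ s) := by
      apply integrable_finsetSum
      intro i _
      apply integrable_finsetSum
      intro k _
      have hu : UF (Icc t₁ s) (fun τ => H459R3.NS.pd k (cw u τ i)) := (h1.uu t₁ s ht₁ hsT₁ i).pd k
      have ju : J T₁ (fun τ => H459R3.NS.pd k (cw u τ i)) := (h1.ju i).pd k
      exact ip_intOn ht₁ hsT₁ ju (ju.mul jG) hu (UF.mulB hu hG)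
    exact (i5.congr_fun e3 measurableSet_Ioc).const_mul ν
  refine ⟨i2, ?_, ?_⟩
  · have i3 := i1.add (i2.const_mul 2)
    refine i3.congr_fun (fun τ _ => ?_) measurableSet_Ioc
    simp only [Pi.add_apply]
    ring
  · rw [key.2]
    congr 1
    exact setIntegral_congr_fun measurableSet_Ioc e2

end

end Pool.Agent.H305.EF
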