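import Pool.Agent.H305.EF.Gfl

/-!
The flux far from the axis.
-/

set_option autoImplicit false

open MeasureTheory Set Metric Filter Topology
open scoped ContDiff ENNReal

namespace Pool.Agent.H305.EF

open H459R3.NS W221.NS Pool.Agent.V1183.PM Pool.Agent.H305.OS Pool.Agent.H305.SL Pool.Agent.H305.PL
open Pool.Agent.W583.MD (sm_pd pd_mul')

lemma ek (k : ℕ) {b : ℝ} (hb : 0 < b) : ∃ C : ℝ, 0 ≤ C ∧ ∀ a : ℝ, 0 < a →
    (1 + 1 / a) ^ (k + 1) * Real.exp (-(b / a)) ≤ C := by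
  have hk : (0 : ℝ) < ((k + 1 : ℕ) : ℝ) := by positivity
  refine ⟨(1 + ((k + 1 : ℕ) : ℝ) / b) ^ (k + 1), by positivity, fun a ha => ?_⟩
  rw [Real.exp_neg, mul_inv_le_iff₀ (Real.exp_pos _)]
  have h1 : 1 + 1 / a ≤ (1 + ((k + 1 : ℕ) : ℝ) / b) * Real.exp (b / (((k + 1 : ℕ) : ℝ) * a)) := by
    have h2 : 1 ≤ Real.exp (b / (((k + 1 : ℕ) : ℝ) * a)) := Real.one_le_exp (by positivity)
    have h3 := Real.add_one_le_exp (b / (((k + 1 : ℕ) : ℝ) * a))
    have h4 : 1 / a ≤ ((k + 1 : ℕ) : ℝ) / b * Real.exp (b / (((k + 1 : ℕ) : ℝ) * a)) := by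
      calc 1 / a = ((k + 1 : ℕ) : ℝ) / b * (b / (((k + 1 : ℕ) : ℝ) * a)) := by field_simp
        _ ≤ _ := mul_le_mul_of_nonneg_left (by linarith) (by positivity)
    linarith
  calc (1 + 1 / a) ^ (k + 1) ≤ ((1 + ((k + 1 : ℕ) : ℝ) / b)
        * Real.exp (b / (((k + 1 : ℕ) : ℝ) * a))) ^ (k + 1) :=
        pow_le_pow_left₀ (by positivity) h1 _
    _ = _ := by
        rw [mul_pow, ← Real.exp_nat_mul]
        congr 2
        field_simp

section
variable {I : Finset (Fin 3)} {ν T T' τ R : ℝ} {x₀ : V} {w : Fin 3 → V → ℝ} {q : V → ℝ}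

lemma kI_bd (k : ℕ) {q₀ : ℝ} (hν : 0 < ν) (hq : 0 < q₀) : ∃ C : ℝ, 0 ≤ C ∧ ∀ a : ℝ, 0 < a → ∀ Q : ℝ,
    q₀ ≤ Q → ((√a)⁻¹) ^ k * Real.exp (-(1 / (4 * ν * a)) * Q) ≤ C := by
  obtain ⟨C, hC, h⟩ := ek k (b := q₀ / (4 * ν)) (by positivity)
  refine ⟨C, hC, fun a ha Q hQ => le_trans ?_ (h a ha)⟩
  have hs : 0 < √a := Real.sqrt_pos.2 ha
  have h1 : (√a)⁻¹ ≤ 1 + 1 / a := by
    have e1 : (√a)⁻¹ ^ 2 = 1 / a := by rw [inv_pow, Real.sq_sqrt ha.le, one_div]
    nlinarith [sq_nonneg ((√a)⁻¹ - 1)]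
  have h2 : 1 ≤ 1 + 1 / a := by
    have : 0 < 1 / a := by positivity
    linarith
  refine mul_le_mul ?_ (Real.exp_le_exp.2 ?_) (Real.exp_pos _).le (by positivity)
  · calc ((√a)⁻¹) ^ k ≤ (1 + 1 / a) ^ k := pow_le_pow_left₀ (by positivity) h1 k
      _ ≤ _ := pow_le_pow_right₀ h2 (Nat.le_succ k)
  · rw [neg_mul, neg_le_neg_iff]
    calc q₀ / (4 * ν) / a = 1 / (4 * ν * a) * q₀ := by field_simp
      _ ≤ _ := mul_le_mul_of_nonneg_left hQ (by positivity)

/-- The bound for the gradient far from the axis. -/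
lemma kfar (I : Finset (Fin 3)) (hν : 0 < ν) (hR : 0 < R) {T₁ : ℝ} (x₀ : V) :
    ∃ C : ℝ, 0 ≤ C ∧ ∀ T' τ : ℝ, 0 < T' - τ → T' - τ ≤ T₁ → ∀ (j : Fin 3) (x : V),
      |H459R3.NS.pd j (fun x => kI I ν T' x₀ τ x * (1 - chi I x₀ R x)) x| ≤ C := by
  obtain ⟨C₁, hC₁, h₁⟩ : ∃ C₁ : ℝ, 0 ≤ C₁ ∧ ∀ (j : Fin 3) (x : V),
      |H459R3.NS.pd j (chi I x₀ R) x| ≤ C₁ := by
    have : ∀ j : Fin 3, ∃ C : ℝ, 0 ≤ C ∧ ∀ x, |H459R3.NS.pd j (chi I x₀ R) x| ≤ C := by
      intro j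
      obtain ⟨C, hC, h⟩ := (chi_BF (I := I) (x₀ := x₀) hR).bd [j]
      exact ⟨C, hC, fun x => h 0 (mem_univ _) x⟩
    choose C hC h using this
    refine ⟨∑ j, C j, Finset.sum_nonneg fun j _ => hC j, fun j x => (h j x).trans ?_⟩
    exact single1 (F := C) hC j
  have hq : 0 < R ^ 2 / 4 := by positivity
  obtain ⟨C₂, hC₂, h₂⟩ := kI_bd I.card (ν := ν) hν hq
  obtain ⟨C₃, hC₃, h₃⟩ := kI_bd (I.card + 2) (ν := 2 * ν) (by positivity) hq
  refine ⟨C₂ * C₁ + C₃ * (1 / (2 * ν)) * (1 + 8 * ν * |T₁|), by positivity, ?_⟩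
  intro T' τ hτ hτ1 j x
  obtain ⟨a, ha⟩ : ∃ a, a = T' - τ := ⟨_, rfl⟩
  rw [← ha] at hτ hτ1
  have hk : ContDiff ℝ ∞ (kI I ν T' x₀ τ) := kI_sm _ _ _ _ _
  have hc : ContDiff ℝ ∞ (chi I x₀ R) := chi_sm _ _ _
  have e1 : H459R3.NS.pd j (fun x => 1 - chi I x₀ R x) x = -H459R3.NS.pd j (chi I x₀ R) x := by
    unfold H459R3.NS.pd
    rw [fderiv_const_sub]
    rfl
  have e2 := pd_mul' hk (contDiff_const.sub hc : ContDiff ℝ ∞ fun x => 1 - chi I x₀ R x) j x
  rw [e2, e1]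
  rcases lt_or_ge (dI I x₀ x) (R / 2) with hx | hx
  · rw [chi_pd_zero hR j hx, chi_one hR hx.le]
    simp only [neg_zero, mul_zero, sub_self, add_zero, abs_zero]
    positivity
  · have hQ : R ^ 2 / 4 ≤ qI I x₀ x := by
      rw [← dI_sq]
      nlinarith
    have hk1 : |kI I ν T' x₀ τ x| ≤ C₂ := by
      rw [abs_of_nonneg (kI_nonneg x), kI_eq, ← ha]
      exact h₂ a hτ _ hQ
    have hs : 0 < √a := Real.sqrt_pos.2 hτ
    have hk2 : |H459R3.NS.pd j (kI I ν T' x₀ τ) x| ≤ C₃ * (1 / (2 * ν)) * (1 + 8 * ν * |T₁|) := by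
      by_cases hj : j ∈ I
      · rw [kI_pd hj, abs_mul, abs_of_nonneg (kI_nonneg x), abs_neg, abs_mul, kI_eq, ← ha,
          abs_of_pos (by positivity : 0 < 2 * (1 / (4 * ν * a)))]
        have h4 : |x j - x₀ j| ≤ dI I x₀ x := abs_le_dI hj
        obtain ⟨d, hd⟩ : ∃ d, d = dI I x₀ x := ⟨_, rfl⟩
        have hd0 : 0 ≤ d := by rw [hd]; exact dI_nonneg _ _ _
        have hq' : qI I x₀ x = d ^ 2 := by rw [hd, dI_sq]
        rw [← hd] at h4
        have e3 : Real.exp (-(1 / (4 * ν * a)) * qI I x₀ x)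
            = Real.exp (-(1 / (4 * (2 * ν) * a)) * qI I x₀ x)
              * Real.exp (-(1 / (8 * ν * a) * d ^ 2)) := by
          rw [← Real.exp_add, hq']
          congr 1
          field_simp
          ring
        have h5 : d * Real.exp (-(1 / (8 * ν * a) * d ^ 2)) ≤ 1 + 8 * ν * |T₁| := by
          have h6 : 1 / (8 * ν * a) * d ^ 2 * Real.exp (-(1 / (8 * ν * a) * d ^ 2)) ≤ 1 := by
            rw [Real.exp_neg, mul_inv_le_iff₀ (Real.exp_pos _), one_mul]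
            linarith [Real.add_one_le_exp (1 / (8 * ν * a) * d ^ 2)]
          have h7 : Real.exp (-(1 / (8 * ν * a) * d ^ 2)) ≤ 1 := by
            rw [Real.exp_le_one_iff]
            have : 0 ≤ 1 / (8 * ν * a) * d ^ 2 := by positivity
            linarith
          have h8 : d ^ 2 * Real.exp (-(1 / (8 * ν * a) * d ^ 2)) ≤ 8 * ν * a := by
            have e4 : d ^ 2 * Real.exp (-(1 / (8 * ν * a) * d ^ 2)) = 8 * ν * a
                * (1 / (8 * ν * a) * d ^ 2 * Real.exp (-(1 / (8 * ν * a) * d ^ 2))) := by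
              field_simp
            rw [e4]
            exact mul_le_of_le_one_right (by positivity) h6
          have h9 : a ≤ |T₁| := hτ1.trans (le_abs_self _)
          have h10 : d ≤ 1 + d ^ 2 := by nlinarith [sq_nonneg (d - 1)]
          have hE := Real.exp_pos (-(1 / (8 * ν * a) * d ^ 2))
          calc d * Real.exp (-(1 / (8 * ν * a) * d ^ 2))
              ≤ (1 + d ^ 2) * Real.exp (-(1 / (8 * ν * a) * d ^ 2)) :=
                mul_le_mul_of_nonneg_right h10 hE.le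
            _ = Real.exp (-(1 / (8 * ν * a) * d ^ 2))
                + d ^ 2 * Real.exp (-(1 / (8 * ν * a) * d ^ 2)) := by ring
            _ ≤ 1 + 8 * ν * a := add_le_add h7 h8
            _ ≤ _ := by
                have : 8 * ν * a ≤ 8 * ν * |T₁| := mul_le_mul_of_nonneg_left h9 (by positivity)
                linarith
        have h11 := h₃ a hτ _ hQ
        have e5 : ((√a)⁻¹) ^ (I.card + 2) = 1 / a * ((√a)⁻¹) ^ I.card := by
          rw [pow_add, inv_pow (√a) 2, Real.sq_sqrt hτ.le, one_div]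
          ring
        rw [e5] at h11
        calc 2 * (1 / (4 * ν * a)) * |x j - x₀ j| * ((√a)⁻¹ ^ I.card
              * Real.exp (-(1 / (4 * ν * a)) * qI I x₀ x))
            ≤ 2 * (1 / (4 * ν * a)) * d * ((√a)⁻¹ ^ I.card
              * Real.exp (-(1 / (4 * ν * a)) * qI I x₀ x)) := by
              refine mul_le_mul_of_nonneg_right (mul_le_mul_of_nonneg_left h4 (by positivity)) ?_
              positivity
          _ = (1 / a * (√a)⁻¹ ^ I.card * Real.exp (-(1 / (4 * (2 * ν) * a)) * qI I x₀ x))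
              * (1 / (2 * ν)) * (d * Real.exp (-(1 / (8 * ν * a) * d ^ 2))) := by
              rw [e3]
              field_simp
              ring
          _ ≤ _ := by
              refine mul_le_mul (mul_le_mul_of_nonneg_right h11 (by positivity)) h5 (by positivity)
                (by positivity)
      · rw [kI_pd_ne hj, abs_zero]
        positivity
    refine (abs_add_le _ _).trans ?_
    rw [abs_mul, abs_mul, abs_neg]
    have h12 : |1 - chi I x₀ R x| ≤ 1 := by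
      rw [abs_of_nonneg (by linarith [chi_le (I := I) (x₀ := x₀) (R := R) x])]
      linarith [chi_nonneg (I := I) (x₀ := x₀) (R := R) x]
    refine add_le_add (mul_le_mul hk1 (h₁ j x) (abs_nonneg _) hC₂) ?_
    calc _ ≤ C₃ * (1 / (2 * ν)) * (1 + 8 * ν * |T₁|) * 1 :=
          mul_le_mul hk2 h12 (abs_nonneg _) (by positivity)
      _ = _ := mul_one _

/-- The flux. -/
lemma fl_far {Ψ : V → ℝ} {C : ℝ} (hC : 0 ≤ C) (h : ∀ j x, |H459R3.NS.pd j Ψ x| ≤ C)
    (mw : ∀ i, Measurable (w i)) (mq : Measurable q) :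
    ENNReal.ofReal |flW w q Ψ| ≤ ENNReal.ofReal C * ∑ j, gF w q (w j) := by
  have hn : Measurable (nw w) := by
    unfold nw
    exact Finset.measurable_sum _ fun i _ => (mw i).pow_const 2
  have m0 : ∀ j, Measurable fun x => ENNReal.ofReal ((nw w x + 2 * |q x|) * |w j x|) := fun j =>
    ((hn.add (mq.norm.const_mul 2)).mul (mw j).norm).ennreal_ofReal
  have e1 : ENNReal.ofReal C * ∑ j, gF w q (w j) = ∫⁻ x, ENNReal.ofReal C
        * ∑ j, ENNReal.ofReal ((nw w x + 2 * |q x|) * |w j x|) := by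
    rw [lintegral_const_mul' _ _ ENNReal.ofReal_ne_top, lintegral_finsetSum _ fun j _ => m0 j]
    rfl
  rw [e1]
  unfold flW
  apply ofReal_int_le
  intro x
  rw [← ENNReal.ofReal_sum_of_nonneg fun j _ => mul_nonneg
      (add_nonneg (nw_nonneg w x) (by positivity)) (abs_nonneg _), ← ENNReal.ofReal_mul hC]
  apply ENNReal.ofReal_le_ofReal
  rw [abs_mul, ← Finset.mul_sum]
  have h1 : |(∑ i, w i x ^ 2) + 2 * q x| ≤ nw w x + 2 * |q x| := by
    refine (abs_add_le _ _).trans (add_le_add (le_of_eq ?_) (le_of_eq ?_))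
    · exact abs_of_nonneg (nw_nonneg w x)
    · rw [abs_mul, abs_of_pos (by norm_num : (0 : ℝ) < 2)]
  have h2 : |∑ j, w j x * H459R3.NS.pd j Ψ x| ≤ C * ∑ j, |w j x| := by
    refine (Finset.abs_sum_le_sum_abs _ _).trans ?_
    rw [Finset.mul_sum]
    refine Finset.sum_le_sum fun j _ => ?_
    rw [abs_mul, mul_comm]
    exact mul_le_mul_of_nonneg_right (h j x) (abs_nonneg _)
  have h3 : 0 ≤ nw w x + 2 * |q x| := add_nonneg (nw_nonneg w x) (by positivity)
  calc |(∑ i, w i x ^ 2) + 2 * q x| * |∑ j, w j x * H459R3.NS.pd j Ψ x|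
      ≤ (nw w x + 2 * |q x|) * (C * ∑ j, |w j x|) := mul_le_mul h1 h2 (abs_nonneg _) h3
    _ = _ := by ring

end

end Pool.Agent.H305.EF
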