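import Pool.Agent.H305.EF.Rot

/-!
The criterion.
-/

set_option autoImplicit false

open MeasureTheory Set Metric Filter Topology
open scoped ContDiff ENNReal

namespace Pool.Agent.H305.EF

open H459R3.NS W221.NS Pool.Agent.V1183.PM Pool.Agent.H305.OS Pool.Agent.H305.SL Pool.Agent.H305.PL
open Pool.Agent.W583.MD (sm_pd pd_mul')

section
variable {I : Finset (Fin 3)} {ν T a R δ : ℝ} {x₀ : V} {u : ℝ → V → V} {p : ℝ → V → ℝ} {g : ℝ → ℝ}

lemma InL.mono {w : Fin 3 → V → ℝ} {q : V → ℝ} {M δ' : ℝ} (hν : 0 < ν) (hδ : δ' ≤ δ)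
    (h : InL I x₀ R ν δ w q M) : InL I x₀ R ν δ' w q M := by
  intro ρ hρ hρR
  refine (h ρ hρ hρR).trans (add_le_add (mul_le_mul_of_nonneg_right (by linarith) ?_) le_rfl)
  refine mul_nonneg hν.le (integral_nonneg fun x => gw_nonneg w x)

/-- The criterion in coordinates. -/
theorem coordI (h : HS ν T u p) (ha : 0 ≤ a) (haT : a < T) (hI : 0 < I.card) (hR : 0 < R)
    (hδ : 0 < δ) (hg : IntegrableOn g (Ioo a T))
    (hin : ∀ᵐ τ ∂(volume.restrict (Ioo a T)), InL I x₀ R ν δ (cw u τ) (p τ) (g τ)) :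
    ∃ d Q : ℝ, 0 < d ∧ ∀ t ∈ Ioo (T - d) T, ∀ x : V, dI I x₀ x < d → ‖u t x‖ ≤ Q := by
  have hν := h.hν
  obtain ⟨t₀, ht₀, E, hST⟩ := ST_of h (a := (a + T) / 2) (by linarith) (by linarith)
  have hsub : Ioo t₀ T ⊆ Ioo a T := Ioo_subset_Ioo_left (by linarith [ht₀.1])
  have hg' := hg.mono_set hsub
  have hδ' : 0 < min δ 1 := by positivity
  have hin' : ∀ᵐ τ ∂(volume.restrict (Ioo t₀ T)), InL I x₀ R ν (min δ 1) (cw u τ) (p τ) (g τ) := by
    filter_upwards [ae_restrict_of_ae_restrict_of_subset hsub hin] with τ hτ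
    exact hτ.mono hν (min_le_left _ _)
  have key : ∃ d Q : ℝ, 0 < d ∧ ∀ t ∈ Ioo (T - d) T, ∀ x₁ ∈ PI' I x₀, ∀ x ∈ ball x₁ d,
      ‖u t x‖ ≤ Q := by
    obtain ⟨n, hn⟩ : ∃ n, I.card = n + 1 := ⟨I.card - 1, by omega⟩
    rcases Nat.eq_zero_or_pos n with h0 | h1
    · subst h0
      obtain ⟨c, hc⟩ := Finset.card_eq_one.1 hn
      subst hc
      exact near1 hST hR hδ' (min_le_right _ _) hg' hin'
    · exact near2 hST hn h1 hR hδ' (min_le_right _ _) hg' hin'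
  obtain ⟨d, Q, hd, hQ⟩ := key
  refine ⟨d, Q, hd, fun t ht x hx => ?_⟩
  refine hQ t ht (fun i => if i ∈ I then x₀ i else x i) (fun i hi => by simp only [if_pos hi]) x ?_
  rw [mem_ball, dist_pi_lt_iff hd]
  intro i
  by_cases hi : i ∈ I
  · simp only [if_pos hi]
    rw [Real.dist_eq]
    exact (abs_le_dI hi).trans_lt hx
  · simp only [if_neg hi, dist_self]
    exact hd

/-- The criterion. -/
theorem inflow_crit (h : HS ν T u p) (ha : 0 ≤ a) (haT : a < T) {m : ℕ} (hm : 0 < m)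
    {f : Fin m → V} (hf : ∀ i j, ∑ l, f i l * f j l = if i = j then 1 else 0) (b : V) (hR : 0 < R)
    (hδ : 0 < δ) (hg : IntegrableOn g (Ioo a T))
    (hin : ∀ᵐ t ∂(volume.restrict (Ioo a T)), ∀ ρ ∈ Ioo 0 R,
      -(∫ x in nbh f b ρ, wk (cw u t) (p t) x)
        ≤ (1 - δ) * (ν * ∫ x in nbh f b ρ, gw (cw u t) x) + g t * ρ) :
    ∃ d : ℝ, 0 < d ∧ ∃ M : ℝ, ∀ t ∈ Ioo (T - d) T, ∀ x ∈ nbh f b d, ∀ i, |u t x i| ≤ M := by
  obtain ⟨M, I, hM, hI, hMI⟩ := exists_MI hm hf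
  have hr := OS.HS.rot h hM
  have hq : ∀ y : V, qI I (lm M b) y = ∑ i, (∑ l, f i l * (lm M y l - b l)) ^ 2 := by
    intro y
    have h1 := hMI (fun l => lm M y l - b l)
    rw [← h1]
    unfold qI
    refine Finset.sum_congr rfl fun i _ => ?_
    have h2 : lm M (fun l => lm M y l - b l) = fun l => y l - lm M b l := by
      have h3 : (fun l => lm M y l - b l) = lm M y - b := rfl
      rw [h3, map_sub, hM.lm_lm]
      rfl
    rw [h2]
  have hnb : ∀ ρ : ℝ, 0 < ρ → nb I (lm M b) ρ = (lm M) ⁻¹' (nbh f b ρ) := by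
    intro ρ hρ
    ext y
    show √(qI I (lm M b) y) < ρ ↔ ∑ i, (∑ l, f i l * (lm M y l - b l)) ^ 2 < ρ ^ 2
    rw [Real.sqrt_lt' hρ, hq]
  have hin' : ∀ᵐ τ ∂(volume.restrict (Ioo a T)),
      InL I (lm M b) R ν δ (cw (uM M u) τ) (pM M p τ) (g τ) := by
    filter_upwards [hin, ae_restrict_mem measurableSet_Ioo] with τ hτ hτm
    intro ρ hρ hρR
    have hτ0 : τ ∈ Ioo 0 T := ⟨ha.trans_lt hτm.1, hτm.2⟩
    have h1 := hτ ρ ⟨hρ, hρR⟩
    rw [hnb ρ hρ]
    simp only [wk_uM h hM hτ0, gw_uM h hM hτ0]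
    rw [int_lm hM (wk (cw u τ) (p τ)), int_lm hM (gw (cw u τ))]
    exact h1
  obtain ⟨d, Q, hd, hQ⟩ := coordI hr ha haT (by omega) hR hδ hg hin'
  refine ⟨d, hd, ∑ i, ∑ k, |M i k| * |Q|, fun t ht x hx i => ?_⟩
  have hx' : dI I (lm M b) (lm M x) < d := by
    have h1 : lm M x ∈ nb I (lm M b) d := by
      rw [hnb d hd]
      show lm M (lm M x) ∈ nbh f b d
      rw [hM.lm_lm]
      exact hx
    exact h1
  have e1 : u t x i = ∑ k, M i k * uM M u t (lm M x) k := by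
    have k1 : (fun k => uM M u t (lm M x) k) = lm M (u t x) := by
      funext k
      unfold uM
      rw [hM.lm_lm, lm_apply]
    have k2 : uM M u t (lm M x) = lm M (u t x) := k1
    rw [k2, ← lm_apply, hM.lm_lm]
  rw [e1]
  have k3 : |∑ k, M i k * uM M u t (lm M x) k| ≤ ∑ k, |M i k| * |Q| := by
    refine (Finset.abs_sum_le_sum_abs _ _).trans (Finset.sum_le_sum fun k _ => ?_)
    rw [abs_mul]
    have k4 := norm_le_pi_norm (uM M u t (lm M x)) k
    rw [Real.norm_eq_abs] at k4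
    exact mul_le_mul_of_nonneg_left ((k4.trans (hQ t ht (lm M x) hx')).trans (le_abs_self Q))
      (abs_nonneg _)
  refine k3.trans ?_
  exact single1 (F := fun i => ∑ k, |M i k| * |Q|)
    (fun i => Finset.sum_nonneg fun k _ => by positivity) i

/-- The derivative of the energy density along the velocity. -/
lemma wk_fderiv {w : Fin 3 → V → ℝ} {q : V → ℝ} (hw : ∀ i, ContDiff ℝ ∞ (w i))
    (hq : ContDiff ℝ ∞ q) (x : V) :
    fderiv ℝ (fun y => (∑ i, w i y ^ 2) / 2 + q y) x (fun i => w i x) = wk w q x := by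
  have d1 : ∀ i, HasFDerivAt (w i) (fderiv ℝ (w i) x) x := fun i =>
    ((hw i).differentiable (by simp) x).hasFDerivAt
  have d2 : HasFDerivAt q (fderiv ℝ q x) x := (hq.differentiable (by simp) x).hasFDerivAt
  have d3 : ∀ i, HasFDerivAt (fun y => w i y ^ 2) ((2 * w i x) • fderiv ℝ (w i) x) x := by
    intro i
    have := (d1 i).pow 2
    refine this.congr_fderiv ?_
    simp
  have d4 : HasFDerivAt (fun y => ∑ i, w i y ^ 2) (∑ i, (2 * w i x) • fderiv ℝ (w i) x) x :=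
    HasFDerivAt.fun_sum fun i _ => d3 i
  have d5 : HasFDerivAt (fun y => (∑ i, w i y ^ 2) / 2 + q y)
      ((2 : ℝ)⁻¹ • (∑ i, (2 * w i x) • fderiv ℝ (w i) x) + fderiv ℝ q x) x := by
    have d6 := (d4.const_mul (2 : ℝ)⁻¹).add d2
    refine d6.congr_of_eventuallyEq (Eventually.of_forall fun y => ?_)
    simp only [Pi.add_apply]
    ring
  rw [d5.fderiv]
  simp only [ContinuousLinearMap.add_apply, ContinuousLinearMap.smul_apply,
    ContinuousLinearMap.sum_apply, smul_eq_mul]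
  have e : ∀ h : V → ℝ, fderiv ℝ h x (fun i => w i x) = ∑ i, w i x * H459R3.NS.pd i h x := fun h =>
    fderiv_sum h x _
  simp only [e]
  unfold wk nl
  simp only [Fin.sum_univ_three]
  ring

end

end Pool.Agent.H305.EF
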