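import Pool.Agent.H305.EF.Cake

/-!
General estimates for the flux.
-/

set_option autoImplicit false

open MeasureTheory Set Metric Filter Topology
open scoped ContDiff ENNReal

namespace Pool.Agent.H305.EF

open H459R3.NS W221.NS Pool.Agent.V1183.PM Pool.Agent.H305.OS Pool.Agent.H305.SL Pool.Agent.H305.PL

section
variable {ρ R r : ℝ} {v : Fin 3 → V → ℝ} {w : V → ℝ} {S S' : Set V}

/-- Changing the order of integration. -/
lemma swapG (hS' : MeasurableSet S') {G : V → ℝ≥0∞} (hw : Continuous w) (hG : Measurable G)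
    (hR : 0 < R) (hSS : ∀ x ∈ S, closedBall x R ⊆ S') {K : ℝ≥0∞}
    (hK : ∀ z, ∫⁻ x in S ∩ closedBall z R, ENNReal.ofReal |w x| ≤ K) :
    ∫⁻ x in S, ENNReal.ofReal |w x| * ∫⁻ y' in closedBall (0 : V) 1, G (x + R • y')
      ≤ ENNReal.ofReal ((R ^ 3)⁻¹) * (K * ∫⁻ z in S', G z) := by
  have e1 : ∀ x, ∫⁻ y' in closedBall (0 : V) 1, G (x + R • y')
      = ENNReal.ofReal ((R ^ 3)⁻¹) * ∫⁻ z in closedBall x R, G z := fun x => ball_av hR hG x
  have mw : Measurable fun x => ENNReal.ofReal |w x| :=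
    (ENNReal.continuous_ofReal.comp hw.abs).measurable
  have e2 : ∫⁻ x in S, ENNReal.ofReal |w x| * ∫⁻ y' in closedBall (0 : V) 1, G (x + R • y')
      = ENNReal.ofReal ((R ^ 3)⁻¹) * ∫⁻ x in S, ∫⁻ z in closedBall x R,
        ENNReal.ofReal |w x| * G z := by
    rw [← lintegral_const_mul' _ _ ENNReal.ofReal_ne_top]
    apply lintegral_congr
    intro x
    rw [e1 x, lintegral_const_mul' _ _ ENNReal.ofReal_ne_top]
    ring
  rw [e2]
  refine mul_le_mul_right ?_ _
  have e3 : ∫⁻ x in S, ∫⁻ z in closedBall x R, ENNReal.ofReal |w x| * G z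
      = ∫⁻ z, ∫⁻ x in S, (if dist z x ≤ R then ENNReal.ofReal |w x| * G z else 0) := by
    rw [lintegral_lintegral_swap]
    · apply lintegral_congr
      intro x
      rw [← lintegral_indicator measurableSet_closedBall]
      rfl
    · apply Measurable.aemeasurable
      apply Measurable.ite
      · exact measurableSet_le (by fun_prop) measurable_const
      · exact (mw.comp measurable_snd).mul (hG.comp measurable_fst)
      · exact measurable_const
  rw [e3]
  have e4 : ∀ z, ∫⁻ x in S, (if dist z x ≤ R then ENNReal.ofReal |w x| * G z else 0)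
      = (∫⁻ x in S ∩ closedBall z R, ENNReal.ofReal |w x|) * G z := by
    intro z
    rw [← lintegral_mul_const _ mw, inter_comm,
      ← Measure.restrict_restrict measurableSet_closedBall, ← lintegral_indicator
      measurableSet_closedBall]
    apply lintegral_congr
    intro x
    simp only [indicator, mem_closedBall]
    rw [dist_comm z x]
  simp only [e4]
  have e5 : ∀ z, (∫⁻ x in S ∩ closedBall z R, ENNReal.ofReal |w x|) * G z
      ≤ S'.indicator (fun z => K * G z) z := by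
    intro z
    by_cases hz : z ∈ S'
    · rw [indicator_of_mem hz]
      exact mul_le_mul_left (hK z) _
    · have : S ∩ closedBall z R = ∅ := by
        rw [eq_empty_iff_forall_notMem]
        rintro x ⟨hx0, hx2⟩
        apply hz
        apply hSS x hx0
        rw [mem_closedBall] at hx2 ⊢
        rwa [dist_comm]
      rw [this]
      simp
  refine (lintegral_mono e5).trans ?_
  rw [lintegral_indicator hS', lintegral_const_mul _ hG]

/-- Integrals over small balls. -/
lemma balG (hw : Continuous w) (hR : 0 < R) (z : V) {e L : ℝ≥0∞}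
    (he : ∫⁻ x in S, ENNReal.ofReal |w x| ^ 2 ≤ e) (hL : ∫⁻ x in S, ENNReal.ofReal (w x ^ 4) ≤ L) :
    ∫⁻ x in S ∩ closedBall z R, ENNReal.ofReal |w x| ≤
      8 * (ENNReal.ofReal R ^ (17 / 8 : ℝ) * (e ^ (1 / 12 : ℝ) * L ^ (5 / 24 : ℝ))) := by
  have mv : Measurable w := hw.measurable
  have m1 : Measurable fun x => ENNReal.ofReal |w x| := mv.norm.ennreal_ofReal
  have m4 : Measurable fun x => ENNReal.ofReal (w x ^ 4) := (mv.pow_const 4).ennreal_ofReal
  have h := hol3 (μ := volume.restrict (S ∩ closedBall z R))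
    (f := fun x => ENNReal.ofReal |w x| ^ 2) (g := fun x => ENNReal.ofReal (w x ^ 4))
    (h := fun _ => 1) (m1.pow_const 2).aemeasurable m4.aemeasurable aemeasurable_const
    (p := 1 / 12) (q := 5 / 24) (r := 17 / 24)
    (by norm_num) (by norm_num) (by norm_num) (by norm_num)
  simp only [ENNReal.one_rpow, mul_one] at h
  have ee : ∀ x, (ENNReal.ofReal |w x| ^ 2) ^ (1 / 12 : ℝ)
      * ENNReal.ofReal (w x ^ 4) ^ (5 / 24 : ℝ) = ENNReal.ofReal |w x| := by
    intro x
    rw [show w x ^ 4 = |w x| ^ 4 by rw [show 4 = 2 * 2 by norm_num, pow_mul, pow_mul, sq_abs],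
      ENNReal.ofReal_pow (abs_nonneg _), ← ENNReal.rpow_natCast, ← ENNReal.rpow_natCast,
      ← ENNReal.rpow_mul, ← ENNReal.rpow_mul,
      ← ENNReal.rpow_add_of_nonneg _ _ (by norm_num) (by norm_num)]
    norm_num
  simp only [ee] at h
  refine h.trans ?_
  have h1 : ∫⁻ x in S ∩ closedBall z R, ENNReal.ofReal (w x ^ 4) ≤ L :=
    (lintegral_mono_set inter_subset_left).trans hL
  have h0 : ∫⁻ x in S ∩ closedBall z R, ENNReal.ofReal |w x| ^ 2 ≤ e :=
    (lintegral_mono_set inter_subset_left).trans he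
  have h2 := PL.vol_cb hR z S
  calc _ ≤ e ^ (1 / 12 : ℝ) * L ^ (5 / 24 : ℝ) * (8 * ENNReal.ofReal R ^ 3) ^ (17 / 24 : ℝ) := by
        refine mul_le_mul' (mul_le_mul' ?_ ?_) ?_
        · exact ENNReal.rpow_le_rpow h0 (by norm_num)
        · exact ENNReal.rpow_le_rpow h1 (by norm_num)
        · exact ENNReal.rpow_le_rpow h2 (by norm_num)
    _ = (8 : ℝ≥0∞) ^ (17 / 24 : ℝ) * (ENNReal.ofReal R ^ (17 / 8 : ℝ)
        * (e ^ (1 / 12 : ℝ) * L ^ (5 / 24 : ℝ))) := by
        rw [ENNReal.mul_rpow_of_nonneg _ _ (by norm_num), ← ENNReal.rpow_natCast,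
          ← ENNReal.rpow_mul, show ((3 : ℕ) : ℝ) * (17 / 24) = 17 / 8 by norm_num]
        ring
    _ ≤ _ := by
        refine mul_le_mul_left ?_ _
        calc (8 : ℝ≥0∞) ^ (17 / 24 : ℝ) ≤ (8 : ℝ≥0∞) ^ (1 : ℝ) :=
              ENNReal.rpow_le_rpow_of_exponent_le (by norm_num) (by norm_num)
          _ = _ := ENNReal.rpow_one _

/-- The near part of the pressure. -/
lemma nearG (hv : ∀ i, HF (v i)) (hw : Continuous w) (hS' : MeasurableSet S') (hr : 0 < r)
    (hSS : ∀ x ∈ S, closedBall x r ⊆ S') {e L g : ℝ≥0∞}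
    (he : ∫⁻ x in S, ENNReal.ofReal |w x| ^ 2 ≤ e) (hL : ∫⁻ x in S, ENNReal.ofReal (w x ^ 4) ≤ L)
    (hg : ∫⁻ x in S', ENNReal.ofReal (√(nw v x) * √(gw v x)) ≤ g) :
    ∫⁻ x in S, ENNReal.ofReal |w x| * nearP v r x ≤
      64 * (ENNReal.ofReal r ^ (1 / 8 : ℝ) * (e ^ (1 / 12 : ℝ) * L ^ (5 / 24 : ℝ) * g)) := by
  have cn := nw_cont hv
  have cg := gw_cont hv
  obtain ⟨G, hG⟩ : ∃ G : V → ℝ, G = fun x => √(nw v x) * √(gw v x) := ⟨_, rfl⟩
  have cG : Continuous G := by
    rw [hG]
    exact cn.sqrt.mul cg.sqrt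
  have mG : Measurable fun x => ENNReal.ofReal (G x) := cG.measurable.ennreal_ofReal
  have m1 : Measurable fun x => ENNReal.ofReal |w x| := hw.measurable.norm.ennreal_ofReal
  have e0 : ∫⁻ x in S, ENNReal.ofReal |w x| * nearP v r x
      = ∫⁻ R in Ioc 0 r, ∫⁻ x in S, ENNReal.ofReal |w x|
        * ∫⁻ y' in closedBall (0 : V) 1, ENNReal.ofReal (G (x + R • y')) := by
    unfold nearP
    have m2 : Measurable fun z : V × ℝ => ∫⁻ y' in closedBall (0 : V) 1,
        ENNReal.ofReal (G (z.1 + z.2 • y')) := by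
      have : Measurable fun q : (V × ℝ) × V => ENNReal.ofReal (G (q.1.1 + q.1.2 • q.2)) := by
        have : Continuous fun q : (V × ℝ) × V => G (q.1.1 + q.1.2 • q.2) := by fun_prop
        exact (ENNReal.continuous_ofReal.comp this).measurable
      exact this.lintegral_prod_right'
    have e6 : ∀ x, ENNReal.ofReal |w x| * ∫⁻ R in Ioc 0 r,
        ∫⁻ y' in closedBall (0 : V) 1,
          ENNReal.ofReal (√(nw v (x + R • y')) * √(gw v (x + R • y')))
        = ∫⁻ R in Ioc 0 r, ENNReal.ofReal |w x| *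
        ∫⁻ y' in closedBall (0 : V) 1, ENNReal.ofReal (G (x + R • y')) := by
      intro x
      rw [hG, ← lintegral_const_mul' _ _ ENNReal.ofReal_ne_top]
    simp only [e6]
    rw [lintegral_lintegral_swap]
    apply Measurable.aemeasurable
    exact (m1.comp measurable_fst).mul m2
  rw [e0]
  obtain ⟨X, hX⟩ : ∃ X : ℝ≥0∞, X = e ^ (1 / 12 : ℝ) * L ^ (5 / 24 : ℝ) := ⟨_, rfl⟩
  have hg' : ∫⁻ x in S', ENNReal.ofReal (G x) ≤ g := by rw [hG]; exact hg
  calc ∫⁻ R in Ioc 0 r, ∫⁻ x in S, ENNReal.ofReal |w x|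
        * ∫⁻ y' in closedBall (0 : V) 1, ENNReal.ofReal (G (x + R • y'))
      ≤ ∫⁻ R in Ioc 0 r, (8 * X * g) * ENNReal.ofReal (R ^ (-(7 / 8) : ℝ)) := by
        apply setLIntegral_mono' measurableSet_Ioc
        intro R hR
        have hR0 : 0 < R := hR.1
        refine (swapG hS' hw mG hR0 (fun x hx => (closedBall_subset_closedBall hR.2).trans (hSS x hx))
          (fun z => balG hw hR0 z he hL)).trans ?_
        rw [← hX]
        have e1 : ENNReal.ofReal ((R ^ 3)⁻¹) * ENNReal.ofReal R ^ (17 / 8 : ℝ)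
            = ENNReal.ofReal (R ^ (-(7 / 8) : ℝ)) := by
          rw [ENNReal.ofReal_rpow_of_pos hR0, ← ENNReal.ofReal_mul (by positivity)]
          congr 1
          rw [← Real.rpow_natCast, ← Real.rpow_neg hR0.le, ← Real.rpow_add hR0]
          norm_num
        calc ENNReal.ofReal ((R ^ 3)⁻¹) * (8 * (ENNReal.ofReal R ^ (17 / 8 : ℝ) * X)
              * ∫⁻ z in S', ENNReal.ofReal (G z))
            = 8 * X * (∫⁻ z in S', ENNReal.ofReal (G z))
              * (ENNReal.ofReal ((R ^ 3)⁻¹) * ENNReal.ofReal R ^ (17 / 8 : ℝ)) := by ring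
          _ ≤ _ := by
              rw [e1]
              gcongr
    _ = (8 * X * g) * ∫⁻ R in Ioc 0 r, ENNReal.ofReal (R ^ (-(7 / 8) : ℝ)) := by
        rw [lintegral_const_mul]
        apply Measurable.ennreal_ofReal
        fun_prop
    _ = (8 * X * g) * (8 * ENNReal.ofReal r ^ (1 / 8 : ℝ)) := by
        congr 1
        have i1 : IntervalIntegrable (fun R : ℝ => R ^ (-(7 / 8) : ℝ)) volume 0 r :=
          intervalIntegral.intervalIntegrable_rpow' (by norm_num)
        rw [intervalIntegrable_iff_integrableOn_Ioc_of_le hr.le] at i1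
        rw [← ofReal_integral_eq_lintegral_ofReal i1]
        · rw [← intervalIntegral.integral_of_le hr.le, integral_rpow (Or.inl (by norm_num)),
            ENNReal.ofReal_rpow_of_pos hr, show (8 : ℝ≥0∞) = ENNReal.ofReal 8 by norm_num,
            ← ENNReal.ofReal_mul (by norm_num)]
          congr 1
          rw [Real.zero_rpow (by norm_num)]
          norm_num
          ring
        · rw [EventuallyLE, ae_restrict_iff' measurableSet_Ioc]
          exact Eventually.of_forall fun R hR => Real.rpow_nonneg hR.1.le _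
    _ = _ := by
        rw [hX]
        ring

/-- The far part of the pressure. -/
lemma farG (hv : ∀ i, HF (v i)) (hw : Continuous w) (hr : 0 < r) {K B : ℝ → ℝ≥0∞} {X : ℝ≥0∞}
    (hK : ∀ R, r < R → ∀ z, ∫⁻ x in S ∩ closedBall z R, ENNReal.ofReal |w x| ≤ K R)
    {D : ℝ → Set V} (hD : ∀ R, MeasurableSet (D R)) (hSS : ∀ R, r < R → ∀ x ∈ S, closedBall x R ⊆ D R)
    (hB : ∀ R, r < R → ∫⁻ x in D R, ENNReal.ofReal (nw v x) ≤ B R)
    (hX : ∫⁻ R in Ioi r, ENNReal.ofReal (R⁻¹ * (R ^ 3)⁻¹) * (K R * B R) ≤ X) :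
    ∫⁻ x in S, ENNReal.ofReal |w x| * farP v r x ≤ X := by
  have cn := nw_cont hv
  have mn : Measurable fun x => ENNReal.ofReal (nw v x) := cn.measurable.ennreal_ofReal
  have m1 : Measurable fun x => ENNReal.ofReal |w x| := hw.measurable.norm.ennreal_ofReal
  have e0 : ∫⁻ x in S, ENNReal.ofReal |w x| * farP v r x
      = ∫⁻ R in Ioi r, ENNReal.ofReal R⁻¹ * ∫⁻ x in S, ENNReal.ofReal |w x|
        * ∫⁻ y' in closedBall (0 : V) 1, ENNReal.ofReal (nw v (x + R • y')) := by
    unfold farP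
    have m2 : Measurable fun z : V × ℝ => ∫⁻ y' in closedBall (0 : V) 1,
        ENNReal.ofReal (nw v (z.1 + z.2 • y')) := by
      have : Measurable fun q : (V × ℝ) × V => ENNReal.ofReal (nw v (q.1.1 + q.1.2 • q.2)) := by
        have : Continuous fun q : (V × ℝ) × V => nw v (q.1.1 + q.1.2 • q.2) := by fun_prop
        exact (ENNReal.continuous_ofReal.comp this).measurable
      exact this.lintegral_prod_right'
    have e6 : ∀ x, ENNReal.ofReal |w x| * ∫⁻ R in Ioi r, ENNReal.ofReal R⁻¹ *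
        ∫⁻ y' in closedBall (0 : V) 1, ENNReal.ofReal (nw v (x + R • y'))
        = ∫⁻ R in Ioi r, ENNReal.ofReal |w x| * (ENNReal.ofReal R⁻¹ *
        ∫⁻ y' in closedBall (0 : V) 1, ENNReal.ofReal (nw v (x + R • y'))) := fun x =>
      (lintegral_const_mul' _ _ ENNReal.ofReal_ne_top).symm
    simp only [e6]
    rw [lintegral_lintegral_swap]
    · apply lintegral_congr
      intro R
      rw [← lintegral_const_mul' _ _ ENNReal.ofReal_ne_top]
      apply lintegral_congr
      intro x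
      ring
    · apply Measurable.aemeasurable
      apply (m1.comp measurable_fst).mul
      apply Measurable.mul _ m2
      fun_prop
  rw [e0]
  refine le_trans (setLIntegral_mono' measurableSet_Ioi fun R hR => ?_) hX
  have hR1 : r < R := hR
  have hR0 : 0 < R := hr.trans hR1
  have h1 := swapG (hD R) hw mn hR0 (hSS R hR1) (hK R hR1)
  calc _ ≤ ENNReal.ofReal R⁻¹ * (ENNReal.ofReal ((R ^ 3)⁻¹) * (K R * B R)) :=
        mul_le_mul_right (h1.trans (mul_le_mul_right (mul_le_mul_right (hB R hR1) _) _)) _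
    _ = _ := by
        rw [ENNReal.ofReal_mul (by positivity)]
        ring

end

end Pool.Agent.H305.EF
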