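import Pool.Agent.H305.PL.Pne

/-!
The backward heat kernels in some of the variables.
-/

set_option autoImplicit false

open MeasureTheory Set Metric Filter Topology
open scoped ContDiff ENNReal

namespace Pool.Agent.H305.EF

open H459R3.NS W221.NS Pool.Agent.V1183.PM Pool.Agent.H305.OS Pool.Agent.H305.SL Pool.Agent.H305.PL
open Pool.Agent.W583.MD (sm_pd pd_mul')

/-- The square of the distance to `x₀` in the variables of `I`. -/
noncomputable def qI (I : Finset (Fin 3)) (x₀ x : V) : ℝ := ∑ i ∈ I, (x i - x₀ i) ^ 2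

/-- The distance. -/
noncomputable def dI (I : Finset (Fin 3)) (x₀ x : V) : ℝ := √(qI I x₀ x)

/-- The neighbourhoods. -/
def nb (I : Finset (Fin 3)) (x₀ : V) (ρ : ℝ) : Set V := {x | dI I x₀ x < ρ}

/-- The kernel. -/
noncomputable def kI (I : Finset (Fin 3)) (ν T' : ℝ) (x₀ : V) (τ : ℝ) (x : V) : ℝ :=
  ∏ i ∈ I, gW ν i T' (x₀ i) τ x

section
variable {I : Finset (Fin 3)} {ν T T' τ s t ρ : ℝ} {x₀ x : V} {c : Fin 3}

lemma qI_nonneg (I : Finset (Fin 3)) (x₀ x : V) : 0 ≤ qI I x₀ x :=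
  Finset.sum_nonneg fun _ _ => sq_nonneg _

lemma dI_nonneg (I : Finset (Fin 3)) (x₀ x : V) : 0 ≤ dI I x₀ x := Real.sqrt_nonneg _

lemma dI_sq (I : Finset (Fin 3)) (x₀ x : V) : dI I x₀ x ^ 2 = qI I x₀ x :=
  Real.sq_sqrt (qI_nonneg I x₀ x)

lemma qI_cont (I : Finset (Fin 3)) (x₀ : V) : Continuous (qI I x₀) := by
  unfold qI
  fun_prop

lemma dI_cont (I : Finset (Fin 3)) (x₀ : V) : Continuous (dI I x₀) := (qI_cont I x₀).sqrt

lemma nb_meas : MeasurableSet (nb I x₀ ρ) :=
  measurableSet_lt (dI_cont I x₀).measurable measurable_const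

lemma nb_mono {ρ' : ℝ} (h : ρ ≤ ρ') : nb I x₀ ρ ⊆ nb I x₀ ρ' := fun _ hx => lt_of_lt_of_le hx h

lemma abs_le_dI (hc : c ∈ I) : |x c - x₀ c| ≤ dI I x₀ x := by
  apply Real.abs_le_sqrt
  exact Finset.single_le_sum (f := fun i => (x i - x₀ i) ^ 2) (fun _ _ => sq_nonneg _) hc

lemma kI_nonneg (x : V) : 0 ≤ kI I ν T' x₀ τ x := Finset.prod_nonneg fun _ _ => gW_nonneg x

lemma kI_insert (hc : c ∉ I) : kI (insert c I) ν T' x₀
    = fun τ x => kI I ν T' x₀ τ x * gW ν c T' (x₀ c) τ x := by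
  funext τ x
  unfold kI
  rw [Finset.prod_insert hc, mul_comm]

lemma kI_sm (I : Finset (Fin 3)) (ν T' : ℝ) (x₀ : V) (τ : ℝ) : ContDiff ℝ ∞ (kI I ν T' x₀ τ) := by
  unfold kI
  exact contDiff_prod fun i _ => gW_sm ν i T' (x₀ i) τ

lemma kI_pd_ne : ∀ {I : Finset (Fin 3)}, c ∉ I → ∀ x, H459R3.NS.pd c (kI I ν T' x₀ τ) x = 0 := by
  intro I
  induction I using Finset.induction_on with
  | empty =>
    intro _ x
    have : kI (∅ : Finset (Fin 3)) ν T' x₀ τ = fun _ => 1 := by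
      funext x
      unfold kI
      rw [Finset.prod_empty]
    rw [this]
    exact pd_one c x
  | insert a I ha ih =>
    intro hc x
    rw [Finset.mem_insert, not_or] at hc
    rw [kI_insert ha]
    have e := pd_mul' (kI_sm I ν T' x₀ τ) (gW_sm ν a T' (x₀ a) τ) c x
    rw [e, ih hc.2 x, gW_pd_ne hc.1]
    ring

lemma kI_ub (hν : 0 < ν) (hst : s ≤ t) (ht : t < T') :
    ∀ I : Finset (Fin 3), UB (Icc s t) (kI I ν T' x₀) := by
  intro I
  induction I using Finset.induction_on with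
  | empty =>
    refine (UB.const (I := Icc s t) 1).congr fun τ _ => ?_
    funext x
    unfold kI
    rw [Finset.prod_empty]
  | insert a I ha ih =>
    rw [kI_insert ha]
    exact ih.mul (gW_ub hν hst ht (x₀ a))

lemma J_one : J T (fun _ _ => 1) := by
  unfold J
  exact contDiffOn_const

lemma kI_j (hν : 0 < ν) (hT : T ≤ T') : ∀ I : Finset (Fin 3), J T (kI I ν T' x₀) := by
  intro I
  induction I using Finset.induction_on with
  | empty =>
    have : kI (∅ : Finset (Fin 3)) ν T' x₀ = fun _ _ => 1 := by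
      funext τ x
      unfold kI
      rw [Finset.prod_empty]
    rw [this]
    exact J_one
  | insert a I ha ih =>
    rw [kI_insert ha]
    exact ih.mul (gW_j hν hT (x₀ a))

lemma gW_dt (ht : t < T') (y : ℝ) (x : V) : DifferentiableAt ℝ (fun s => gW ν c T' y s x) t := by
  have h0 : 0 < T' - t := by linarith
  have hs0 : 0 < √(T' - t) := Real.sqrt_pos.2 h0
  have h1 : HasDerivAt (fun s => T' - s) (-1) t := by
    simpa using (hasDerivAt_id t).const_sub T'
  have h2 : DifferentiableAt ℝ (fun s => (√(T' - s))⁻¹) t :=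
    ((h1.sqrt h0.ne').inv hs0.ne').differentiableAt
  have h3 : DifferentiableAt ℝ (fun s => Real.exp (-(1 / (4 * ν * (T' - s))) * (x c - y) ^ 2)) t := by
    by_cases hν : ν = 0
    · subst hν
      simp
    · have h4 : HasDerivAt (fun s => 4 * ν * (T' - s)) (4 * ν * -1) t := h1.const_mul (4 * ν)
      have h5 := (hasDerivAt_const t (1 : ℝ)).div h4 (by positivity)
      exact (h5.neg.mul_const ((x c - y) ^ 2)).exp.differentiableAt
  exact h2.mul h3

lemma kI_dt (ht : t < T') (I : Finset (Fin 3)) (x : V) :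
    DifferentiableAt ℝ (fun s => kI I ν T' x₀ s x) t := by
  unfold kI
  exact DifferentiableAt.fun_finsetProd fun i _ => gW_dt ht (x₀ i) x

/-- The backward heat equation. -/
lemma kI_heat (hν : 0 < ν) (ht : t < T') (x : V) : ∀ I : Finset (Fin 3),
    deriv (fun s => kI I ν T' x₀ s x) t = -(ν * lp (kI I ν T' x₀ t) x) := by
  intro I
  induction I using Finset.induction_on with
  | empty =>
    have h1 : (fun s => kI (∅ : Finset (Fin 3)) ν T' x₀ s x) = fun _ => 1 := by
      funext τ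
      unfold kI
      rw [Finset.prod_empty]
    have h2 : kI (∅ : Finset (Fin 3)) ν T' x₀ t = fun _ => 1 := by
      funext τ
      unfold kI
      rw [Finset.prod_empty]
    rw [h1, h2, lp_one]
    simp
  | insert a I ha ih =>
    have e1 : (fun s => kI (insert a I) ν T' x₀ s x)
        = fun s => kI I ν T' x₀ s x * gW ν a T' (x₀ a) s x := by
      rw [kI_insert ha]
    have e2 : kI (insert a I) ν T' x₀ t = wg (kI I ν T' x₀ t) ν a T' (x₀ a) t := by
      rw [kI_insert ha]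
      rfl
    have e3 : deriv (fun s => kI I ν T' x₀ s x * gW ν a T' (x₀ a) s x) t
        = deriv (fun s => kI I ν T' x₀ s x) t * gW ν a T' (x₀ a) t x
          + kI I ν T' x₀ t x * deriv (fun s => gW ν a T' (x₀ a) s x) t :=
      deriv_fun_mul (kI_dt ht I x) (gW_dt ht (x₀ a) x)
    rw [e1, e2, e3, ih, heat_gW hν ht, lp_wg (kI_sm I ν T' x₀ t) (fun x => kI_pd_ne ha x)]
    ring

/-- The formula for the kernel. -/
lemma kI_eq (I : Finset (Fin 3)) (ν T' : ℝ) (x₀ : V) (τ : ℝ) (x : V) : kI I ν T' x₀ τ x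
    = ((√(T' - τ))⁻¹) ^ I.card * Real.exp (-(1 / (4 * ν * (T' - τ))) * qI I x₀ x) := by
  unfold kI gW gk qI
  rw [Finset.prod_mul_distrib, Finset.prod_const, ← Real.exp_sum, Finset.mul_sum]

lemma kI_gk {n : ℕ} (hn : I.card = n + 1) (ν T' : ℝ) (x₀ : V) (τ : ℝ) (x : V) : kI I ν T' x₀ τ x
    = ((√(T' - τ))⁻¹) ^ n * gk ν (T' - τ) (dI I x₀ x) := by
  rw [kI_eq, hn, pow_succ]
  unfold gk
  rw [dI_sq]
  ring

lemma kI_pd (hc : c ∈ I) (x : V) : H459R3.NS.pd c (kI I ν T' x₀ τ) x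
    = -(2 * (1 / (4 * ν * (T' - τ))) * (x c - x₀ c)) * kI I ν T' x₀ τ x := by
  have e1 : I = insert c (I.erase c) := (Finset.insert_erase hc).symm
  have hc' : c ∉ I.erase c := Finset.notMem_erase c I
  rw [e1, kI_insert hc']
  have e := pd_mul' (kI_sm (I.erase c) ν T' x₀ τ) (gW_sm ν c T' (x₀ c) τ) c x
  rw [e, kI_pd_ne hc' x, pd_gW]
  simp only [if_true]
  ring

end

end Pool.Agent.H305.EF
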