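import Pool.Agent.H305.EF.Bdk

/-!
Bounds for the neighbourhoods.
-/

set_option autoImplicit false

open MeasureTheory Set Metric Filter Topology
open scoped ContDiff ENNReal

namespace Pool.Agent.H305.EF

open H459R3.NS W221.NS Pool.Agent.V1183.PM Pool.Agent.H305.OS Pool.Agent.H305.SL Pool.Agent.H305.PL

section
variable {I : Finset (Fin 3)} {ν T t₀ t₂ E R δ A τ T' ρ : ℝ} {x₀ : V}
  {u : ℝ → V → V} {p : ℝ → V → ℝ} {m : ℝ → ℝ} {n : ℕ}

/-- The lower bound for the kernel. -/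
lemma kI_low (hI : I.card = n + 1) (hν : 0 < ν) (hρ : 0 < ρ) (h1 : ρ ^ 2 ≤ T' - τ)
    (h2 : T' - τ ≤ 2 * ρ ^ 2) {x : V} (hx : x ∈ nb I x₀ ρ) :
    1 ≤ (2 * ρ) ^ (n + 1) * Real.exp (1 / (4 * ν)) * kI I ν T' x₀ τ x := by
  have ha : 0 < T' - τ := lt_of_lt_of_le (by positivity) h1
  have hs : 0 < √(T' - τ) := Real.sqrt_pos.2 ha
  have hs2 : √(T' - τ) ≤ 2 * ρ := by
    rw [Real.sqrt_le_left (by positivity)]
    nlinarith
  have hx' : |dI I x₀ x| ≤ 1 * ρ := by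
    rw [one_mul, abs_of_nonneg (dI_nonneg _ _ _)]
    exact le_of_lt hx
  have h3 := gk_low (ν := ν) hν hρ h1 h2 hx'
  have h4 : ((2 * ρ)⁻¹) ^ n ≤ ((√(T' - τ))⁻¹) ^ n :=
    pow_le_pow_left₀ (by positivity) (inv_anti₀ hs hs2) n
  rw [kI_gk hI]
  calc (1 : ℝ) = (2 * ρ) ^ (n + 1) * Real.exp (1 / (4 * ν))
        * (((2 * ρ)⁻¹) ^ n * ((2 * ρ)⁻¹ * Real.exp (-(1 ^ 2 / (4 * ν))))) := by
        rw [one_pow, Real.exp_neg, pow_succ, inv_pow]
        have := Real.exp_pos (1 / (4 * ν))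
        field_simp
    _ ≤ _ := by
        refine mul_le_mul_of_nonneg_left (mul_le_mul h4 h3 ?_ (by positivity)) (by positivity)
        positivity

/-- From the weight to the neighbourhood. -/
lemma nb_low (hI : I.card = n + 1) (hν : 0 < ν) (hρ : 0 < ρ) (h1 : ρ ^ 2 ≤ T' - τ)
    (h2 : T' - τ ≤ 2 * ρ ^ 2) {F : V → ℝ≥0∞} :
    ∫⁻ x in nb I x₀ ρ, F x ≤ ENNReal.ofReal ((2 * ρ) ^ (n + 1) * Real.exp (1 / (4 * ν)))
      * ∫⁻ x, F x * ENNReal.ofReal (kI I ν T' x₀ τ x) := by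
  have hE := Real.exp_pos (1 / (4 * ν))
  have e1 : ∀ x ∈ nb I x₀ ρ, F x ≤ ENNReal.ofReal ((2 * ρ) ^ (n + 1) * Real.exp (1 / (4 * ν)))
      * (F x * ENNReal.ofReal (kI I ν T' x₀ τ x)) := by
    intro x hx
    calc F x = F x * 1 := (mul_one _).symm
      _ ≤ F x * ENNReal.ofReal ((2 * ρ) ^ (n + 1) * Real.exp (1 / (4 * ν)) * kI I ν T' x₀ τ x) := by
          refine mul_le_mul_right ?_ _
          rw [← ENNReal.ofReal_one]
          exact ENNReal.ofReal_le_ofReal (kI_low hI hν hρ h1 h2 hx)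
      _ = _ := by
          rw [ENNReal.ofReal_mul (by positivity)]
          ring
  calc ∫⁻ x in nb I x₀ ρ, F x
      ≤ ∫⁻ x in nb I x₀ ρ, ENNReal.ofReal ((2 * ρ) ^ (n + 1) * Real.exp (1 / (4 * ν)))
        * (F x * ENNReal.ofReal (kI I ν T' x₀ τ x)) := setLIntegral_mono' nb_meas e1
    _ = ENNReal.ofReal ((2 * ρ) ^ (n + 1) * Real.exp (1 / (4 * ν)))
        * ∫⁻ x in nb I x₀ ρ, F x * ENNReal.ofReal (kI I ν T' x₀ τ x) :=
        lintegral_const_mul' _ _ ENNReal.ofReal_ne_top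
    _ ≤ _ := mul_le_mul_right (setLIntegral_le_lintegral _ _) _

lemma nw_low (h : ST ν T u p t₀ E) (hI : I.card = n + 1) {s : ℝ} (hs : s ∈ Ico t₀ T) (hρ : 0 < ρ)
    {B : ℝ} (hB : (√(s + ρ ^ 2 - s)) ^ n * enW (cw u s) (kI I ν (s + ρ ^ 2) x₀ s) ≤ B) :
    ∫⁻ x in nb I x₀ ρ, ENNReal.ofReal (nw (cw u s) x)
      ≤ ENNReal.ofReal (2 ^ (n + 1) * Real.exp (1 / (4 * ν)) * B * ρ) := by
  have hν := h.hν
  have hE := Real.exp_pos (1 / (4 * ν))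
  have hr : √(s + ρ ^ 2 - s) = ρ := by
    rw [add_sub_cancel_left, Real.sqrt_sq hρ.le]
  rw [hr] at hB
  have hw : ∀ i, HF (cw u s i) := fun i => h.toHS.cw_HF (h.mem0 hs) i
  have hsT : s < s + ρ ^ 2 := by
    have : 0 < ρ ^ 2 := by positivity
    linarith
  refine (nb_low (T' := s + ρ ^ 2) (τ := s) hI hν hρ (by linarith) (by nlinarith)).trans ?_
  rw [← enW_lint hw (kI_BF hν hsT) (fun x => kI_nonneg x), ← ENNReal.ofReal_mul (by positivity)]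
  apply ENNReal.ofReal_le_ofReal
  calc (2 * ρ) ^ (n + 1) * Real.exp (1 / (4 * ν)) * enW (cw u s) (kI I ν (s + ρ ^ 2) x₀ s)
      = 2 ^ (n + 1) * Real.exp (1 / (4 * ν)) * ρ
        * (ρ ^ n * enW (cw u s) (kI I ν (s + ρ ^ 2) x₀ s)) := by ring
    _ ≤ 2 ^ (n + 1) * Real.exp (1 / (4 * ν)) * ρ * B := mul_le_mul_of_nonneg_left hB (by positivity)
    _ = _ := by ring

/-- The energy bound. -/
lemma sbK (h : ST ν T u p t₀ E) (hI : I.card = n + 1) (hR : 0 < R) (hδ0 : 0 ≤ δ) (hδ1 : δ ≤ 1)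
    (hm : IntegrableOn m (Ioo t₀ T))
    (hin : ∀ᵐ τ ∂(volume.restrict (Ioo t₀ T)), InL I x₀ R ν δ (cw u τ) (p τ) (m τ))
    (ht₂ : t₂ ∈ Ioo t₀ T) :
    ∃ A : ℝ, 0 ≤ A ∧ ∀ ρ : ℝ, 0 < ρ → ∀ s ∈ Ico t₂ T,
      ∫⁻ x in nb I x₀ ρ, ENNReal.ofReal (nw (cw u s) x) ≤ ENNReal.ofReal (A * ρ) := by
  obtain ⟨A, hA, hb⟩ := bdK h hI hR hδ0 hδ1 hm hin ht₂
  have hE := h.E0
  have hX := Real.exp_pos (1 / (4 * ν))
  refine ⟨2 ^ (n + 1) * Real.exp (1 / (4 * ν)) * A + E, by positivity, ?_⟩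
  intro ρ hρ s hs
  have hs' : s ∈ Ico t₀ T := ⟨ht₂.1.le.trans hs.1, hs.2⟩
  rcases le_or_gt ρ 1 with h1 | h1
  · have h2 : ρ ^ 2 ≤ 1 := pow_le_one₀ hρ.le h1
    have h3 : 0 < ρ ^ 2 := by positivity
    have h4 := (hb s hs (s + ρ ^ 2) (by linarith) (by linarith [hs.2])).1
    refine (nw_low h hI hs' hρ h4).trans (ENNReal.ofReal_le_ofReal ?_)
    have : 0 ≤ E * ρ := by positivity
    linarith
  · refine (setLIntegral_le_lintegral _ _).trans ((h.e1 s hs').trans (ENNReal.ofReal_le_ofReal ?_))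
    have h5 : 0 ≤ 2 ^ (n + 1) * Real.exp (1 / (4 * ν)) * A * ρ := by positivity
    nlinarith

/-- The dissipation bound. -/
lemma sgK (h : ST ν T u p t₀ E) (hI : I.card = n + 1) (hR : 0 < R) (hδ0 : 0 < δ) (hδ1 : δ ≤ 1)
    (hm : IntegrableOn m (Ioo t₀ T))
    (hin : ∀ᵐ τ ∂(volume.restrict (Ioo t₀ T)), InL I x₀ R ν δ (cw u τ) (p τ) (m τ))
    (ht₂ : t₂ ∈ Ioo t₀ T) :
    ∃ A : ℝ, 0 ≤ A ∧ (∀ ρ : ℝ, 0 < ρ → ∀ s' s : ℝ, t₂ ≤ s' → s' ≤ s → s < T → s - s' ≤ ρ ^ 2 →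
      ∫⁻ τ in Ioc s' s, ∫⁻ x in nb I x₀ ρ, ENNReal.ofReal (gw (cw u τ) x) ≤ ENNReal.ofReal (A * ρ)) ∧
      (n = 0 → ∫⁻ τ in Ioo t₂ T, ∫⁻ x, ENNReal.ofReal (gw (cw u τ) x)
        * ENNReal.ofReal (kI I ν T x₀ τ x) ≤ ENNReal.ofReal A) := by
  obtain ⟨A, hA, hb⟩ := bdK h hI hR hδ0.le hδ1 hm hin ht₂
  obtain ⟨C, hC, hen⟩ := en_K h hI hR hδ1 hm hin
  have hE := h.E0
  have hν := h.hν
  have hX := Real.exp_pos (1 / (4 * ν))
  -- the integral of the weighted dissipation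
  have key : ∀ s ∈ Ico t₂ T, ∀ T' : ℝ, s < T' → T' ≤ T + 1 →
      ENNReal.ofReal ((√(T' - s)) ^ n) * ∫⁻ τ in Ioc t₀ s, ∫⁻ x, ENNReal.ofReal (gw (cw u τ) x)
        * ENNReal.ofReal (kI I ν T' x₀ τ x) ≤ ENNReal.ofReal (A / (2 * δ * ν)) := by
    intro s hs T' hsT' hT'
    have hs' : s ∈ Ico t₀ T := ⟨ht₂.1.le.trans hs.1, hs.2⟩
    have i1 := (hen t₀ s T' le_rfl hs'.1 hs.2 hsT' hT').1
    have h2 := (hb s hs T' hsT' hT').2
    have e2 : ∫⁻ τ in Ioc t₀ s, ∫⁻ x, ENNReal.ofReal (gw (cw u τ) x)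
        * ENNReal.ofReal (kI I ν T' x₀ τ x)
        = ENNReal.ofReal ν⁻¹ * ENNReal.ofReal
          (∫ τ in Ioc t₀ s, ν * dsW (cw u τ) (kI I ν T' x₀ τ)) := by
      rw [ofReal_integral_eq_lintegral_ofReal i1
        (Eventually.of_forall fun τ => mul_nonneg hν.le (dsW_nonneg fun x => kI_nonneg x)),
        ← lintegral_const_mul' _ _ ENNReal.ofReal_ne_top]
      refine setLIntegral_congr_fun measurableSet_Ioc fun τ hτ => ?_
      have hτ' : τ ∈ Ioo 0 T := ⟨h.t0.trans hτ.1, hτ.2.trans_lt hs.2⟩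
      rw [← ENNReal.ofReal_mul (by positivity), ← mul_assoc, inv_mul_cancel₀ hν.ne', one_mul,
        dsW_lint (fun i => h.toHS.cw_HF hτ' i) (kI_BF hν (hτ.2.trans_lt hsT')) fun x => kI_nonneg x]
    rw [e2, ← ENNReal.ofReal_mul (by positivity), ← ENNReal.ofReal_mul (by positivity)]
    apply ENNReal.ofReal_le_ofReal
    calc (√(T' - s)) ^ n * (ν⁻¹ * ∫ τ in Ioc t₀ s, ν * dsW (cw u τ) (kI I ν T' x₀ τ))
        = (2 * δ * ((√(T' - s)) ^ n * ∫ τ in Ioc t₀ s, ν * dsW (cw u τ) (kI I ν T' x₀ τ)))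
          / (2 * δ * ν) := by field_simp
      _ ≤ _ := div_le_div_of_nonneg_right h2 (by positivity)
  refine ⟨2 ^ (n + 1) * Real.exp (1 / (4 * ν)) * (A / (2 * δ * ν)) + E + A / (2 * δ * ν),
    by positivity, ?_, ?_⟩
  · intro ρ hρ s' s hs' hss hs hk
    have hs2 : s ∈ Ico t₂ T := ⟨hs'.trans hss, hs⟩
    rcases le_or_gt ρ 1 with h1 | h1
    · have h2 : ρ ^ 2 ≤ 1 := pow_le_one₀ hρ.le h1
      have h3 : 0 < ρ ^ 2 := by positivity
      have h4 := key s hs2 (s + ρ ^ 2) (by linarith) (by linarith)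
      have hr : √(s + ρ ^ 2 - s) = ρ := by
        rw [add_sub_cancel_left, Real.sqrt_sq hρ.le]
      rw [hr] at h4
      calc ∫⁻ τ in Ioc s' s, ∫⁻ x in nb I x₀ ρ, ENNReal.ofReal (gw (cw u τ) x)
          ≤ ∫⁻ τ in Ioc s' s, ENNReal.ofReal ((2 * ρ) ^ (n + 1) * Real.exp (1 / (4 * ν)))
            * ∫⁻ x, ENNReal.ofReal (gw (cw u τ) x)
              * ENNReal.ofReal (kI I ν (s + ρ ^ 2) x₀ τ x) := by
            refine setLIntegral_mono' measurableSet_Ioc fun τ hτ => ?_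
            exact nb_low hI hν hρ (by linarith [hτ.2]) (by linarith [hτ.1])
        _ = ENNReal.ofReal ((2 * ρ) ^ (n + 1) * Real.exp (1 / (4 * ν))) * ∫⁻ τ in Ioc s' s,
            ∫⁻ x, ENNReal.ofReal (gw (cw u τ) x)
              * ENNReal.ofReal (kI I ν (s + ρ ^ 2) x₀ τ x) :=
            lintegral_const_mul' _ _ ENNReal.ofReal_ne_top
        _ ≤ ENNReal.ofReal ((2 * ρ) ^ (n + 1) * Real.exp (1 / (4 * ν))) * ∫⁻ τ in Ioc t₀ s,
            ∫⁻ x, ENNReal.ofReal (gw (cw u τ) x)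
              * ENNReal.ofReal (kI I ν (s + ρ ^ 2) x₀ τ x) :=
            mul_le_mul_right (lintegral_mono_set (Ioc_subset_Ioc_left (ht₂.1.le.trans hs'))) _
        _ = ENNReal.ofReal (2 ^ (n + 1) * Real.exp (1 / (4 * ν)) * ρ) * (ENNReal.ofReal (ρ ^ n)
            * ∫⁻ τ in Ioc t₀ s, ∫⁻ x, ENNReal.ofReal (gw (cw u τ) x)
              * ENNReal.ofReal (kI I ν (s + ρ ^ 2) x₀ τ x)) := by
            rw [← mul_assoc, ← ENNReal.ofReal_mul (by positivity)]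
            congr 2
            ring
        _ ≤ ENNReal.ofReal (2 ^ (n + 1) * Real.exp (1 / (4 * ν)) * ρ)
            * ENNReal.ofReal (A / (2 * δ * ν)) := mul_le_mul_right h4 _
        _ ≤ _ := by
            rw [← ENNReal.ofReal_mul (by positivity)]
            apply ENNReal.ofReal_le_ofReal
            have : 0 ≤ E * ρ := by positivity
            have : 0 ≤ A / (2 * δ * ν) * ρ := by positivity
            linarith
    · calc ∫⁻ τ in Ioc s' s, ∫⁻ x in nb I x₀ ρ, ENNReal.ofReal (gw (cw u τ) x)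
          ≤ ∫⁻ τ in Ioo t₀ T, ∫⁻ x, ENNReal.ofReal (gw (cw u τ) x) := by
            refine (lintegral_mono_set (fun τ hτ => ?_)).trans
              (lintegral_mono fun τ => setLIntegral_le_lintegral _ _)
            exact ⟨(ht₂.1.trans_le hs').trans hτ.1, hτ.2.trans_lt hs⟩
        _ ≤ ENNReal.ofReal E := h.e2
        _ ≤ _ := by
            apply ENNReal.ofReal_le_ofReal
            have h5 : 0 ≤ 2 ^ (n + 1) * Real.exp (1 / (4 * ν)) * (A / (2 * δ * ν)) * ρ := by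
              positivity
            have : 0 ≤ A / (2 * δ * ν) * ρ := by positivity
            nlinarith
  · intro hn
    refine Ioo_of_Ioc ht₂.2 fun s hs1 hs2 => ?_
    have h4 := key s ⟨hs1, hs2⟩ T hs2 (by linarith)
    rw [hn, pow_zero, ENNReal.ofReal_one, one_mul] at h4
    refine (lintegral_mono_set (Ioc_subset_Ioc_left ht₂.1.le)).trans (h4.trans ?_)
    apply ENNReal.ofReal_le_ofReal
    have h5 : 0 ≤ 2 ^ (n + 1) * Real.exp (1 / (4 * ν)) * (A / (2 * δ * ν)) := by positivity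
    rw [hn] at h5 ⊢
    linarith

end

end Pool.Agent.H305.EF
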