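import Pool.Agent.H305.EF.Sml

/-!
Boundedness near a point, a line or a plane.
-/

set_option autoImplicit false

open MeasureTheory Set Metric Filter Topology
open scoped ContDiff ENNReal

namespace Pool.Agent.H305.EF

open H459R3.NS W221.NS Pool.Agent.V1183.PM Pool.Agent.H305.OS Pool.Agent.H305.SL Pool.Agent.H305.PL

section
variable {ν T t₀ A : ℝ} {u : ℝ → V → V} {p : ℝ → V → ℝ}

/-- Boundedness near a set of points. -/
theorem near_of (h : HS ν T u p) (ht₀ : 0 < t₀) (hA : 0 ≤ A) {P : Set V}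
    (h1 : ∀ ρ : ℝ, 0 < ρ → ∀ x₁ ∈ P, ∀ s ∈ Ico t₀ T,
      ∫⁻ x in ball x₁ ρ, ENNReal.ofReal (nw (cw u s) x) ≤ ENNReal.ofReal (A * ρ))
    (h2 : ∀ L θ : ℝ, 1 ≤ L → 0 < θ → ∃ k : ℕ, t₀ ≤ T - (1 / 4) ^ k ∧ ∀ x₁ ∈ P,
      ∀ s ∈ Ico (T - (1 / 4) ^ k / 4) T, ∫⁻ τ in Ioc (T - (1 / 4) ^ k / 4) s,
        ∫⁻ x in ball x₁ (L * (1 / 2) ^ k), ENNReal.ofReal (gw (cw u τ) x)
        ≤ ENNReal.ofReal (θ * (1 / 2) ^ k)) : ∃ δ Q : ℝ, 0 < δ ∧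
    ∀ t ∈ Ioo (T - δ) T, ∀ x₁ ∈ P, ∀ x ∈ ball x₁ δ, ‖u t x‖ ≤ Q := by
  obtain ⟨C, ε₀, hC, hε₀, hreg⟩ := reg'
  have hν := h.hν
  obtain ⟨b, hb, hb2⟩ : ∃ b : ℝ, 0 < b ∧ b ^ 2 = ν / 16 := by
    refine ⟨√(ν / 16), Real.sqrt_pos.2 (by positivity), Real.sq_sqrt (by positivity)⟩
  obtain ⟨q, hq⟩ : ∃ q : ℝ, q = 1 + C * b + C * (ν⁻¹ * √(3 * A * b)) := ⟨_, rfl⟩
  have hq1 : 1 ≤ q := by
    have h1 : 0 ≤ C * b := by positivity
    have h2 : 0 ≤ C * (ν⁻¹ * √(3 * A * b)) := by positivity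
    linarith
  obtain ⟨L, hL⟩ : ∃ L : ℝ, L = q ^ 2 := ⟨_, rfl⟩
  have hL1 : 1 ≤ L := by rw [hL]; exact one_le_pow₀ hq1
  have hL0 : 0 < L := by linarith
  have hθ : 0 < ε₀ * ν * b := by positivity
  obtain ⟨k, hk0, hk⟩ := h2 L _ hL1 hθ
  have hh : (0 : ℝ) < (1 / 2) ^ k := by positivity
  have h4 : ((1 : ℝ) / 4) ^ k = ((1 / 2) ^ k) ^ 2 := pow4 k
  have h4p : (0 : ℝ) < (1 / 4) ^ k := by positivity
  obtain ⟨m, hm⟩ : ∃ m : ℝ, m = A * (3 * (L * (1 / 2) ^ k)) := ⟨_, rfl⟩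
  have hm0 : 0 ≤ m := by rw [hm]; positivity
  have hr : 0 < b * (1 / 2) ^ k := by positivity
  obtain ⟨δ, Q, hδ, hQ⟩ := hreg ν m (b * (1 / 2) ^ k) hν hm0 hr
  have hrν : (b * (1 / 2) ^ k) ^ 2 / ν = (1 / 4) ^ k / 16 := by
    rw [mul_pow, hb2, ← h4]
    field_simp
  have hCρ : C * (b * (1 / 2) ^ k + ν⁻¹ * √m * √(b * (1 / 2) ^ k)) ≤ L * (1 / 2) ^ k := by
    have e1 : √m * √(b * (1 / 2) ^ k) = √(3 * A * b) * q * (1 / 2) ^ k := by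
      rw [← Real.sqrt_mul hm0, hm, hL]
      have e2 : A * (3 * (q ^ 2 * (1 / 2) ^ k)) * (b * (1 / 2) ^ k)
          = 3 * A * b * (q * (1 / 2) ^ k) ^ 2 := by ring
      rw [e2, Real.sqrt_mul (by positivity), Real.sqrt_sq (by positivity)]
      ring
    calc C * (b * (1 / 2) ^ k + ν⁻¹ * √m * √(b * (1 / 2) ^ k))
        = (C * b + C * (ν⁻¹ * √(3 * A * b)) * q) * (1 / 2) ^ k := by
          rw [mul_assoc ν⁻¹, e1]; ring
      _ ≤ L * (1 / 2) ^ k := by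
          refine mul_le_mul_of_nonneg_right ?_ hh.le
          have h1 : 0 ≤ C * b := by positivity
          have h2 : 0 ≤ C * (ν⁻¹ * √(3 * A * b)) := by positivity
          rw [hL, pow_two]
          calc C * b + C * (ν⁻¹ * √(3 * A * b)) * q
              ≤ (1 + C * b) * q + C * (ν⁻¹ * √(3 * A * b)) * q := by
                have : C * b ≤ (1 + C * b) * q := by nlinarith
                linarith
            _ = q * q := by rw [hq]; ring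
  have ht₀' : 0 < T - (1 / 4) ^ k / 4 := by linarith
  refine ⟨min δ ((1 / 4) ^ k / 8), Q, by positivity, ?_⟩
  intro t ht x₁ hx₁ x hx
  have hδ1 : min δ ((1 / 4) ^ k / 8) ≤ δ := min_le_left _ _
  have hδ2 : min δ ((1 / 4 : ℝ) ^ k / 8) ≤ (1 / 4) ^ k / 8 := min_le_right _ _
  have hxb : x ∈ ball x₁ δ := ball_subset_ball hδ1 hx
  refine hQ T u p h (T - (1 / 4) ^ k / 4) ht₀' x₁ (L * (1 / 2) ^ k) hCρ ?_
    ((t + T) / 2) ?_ ?_ ?_ t ?_ x hxb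
  · intro τ hτ
    have h5 := h1 (3 * (L * (1 / 2) ^ k)) (by positivity) x₁ hx₁ τ ⟨by linarith [hτ.1], hτ.2⟩
    rwa [← hm] at h5
  · rw [hrν]
    linarith [ht.1]
  · linarith [ht.2]
  · refine le_trans (lintegral_mono_set Ioo_subset_Ioc_self) ?_
    refine (hk x₁ hx₁ ((t + T) / 2) ⟨by linarith [ht.1], by linarith [ht.2]⟩).trans (le_of_eq ?_)
    congr 1
    ring
  · constructor
    · linarith [ht.1]
    · linarith [ht.2]

end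

section
variable {I : Finset (Fin 3)} {ν T t₀ t₂ E R δ A : ℝ} {x₀ : V}
  {u : ℝ → V → V} {p : ℝ → V → ℝ} {m : ℝ → ℝ} {n : ℕ}

/-- The points of the affine subspace. -/
def PI' (I : Finset (Fin 3)) (x₀ : V) : Set V := {x₁ | ∀ i ∈ I, x₁ i = x₀ i}

lemma ball_nb {x₁ : V} (hx₁ : x₁ ∈ PI' I x₀) {ρ : ℝ} (hρ : 0 < ρ) : ball x₁ ρ ⊆ nb I x₀ (2 * ρ) := by
  intro x hx
  have h1 : qI I x₀ x < (2 * ρ) ^ 2 := by
    calc qI I x₀ x = ∑ i ∈ I, (x i - x₁ i) ^ 2 := by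
          unfold qI
          refine Finset.sum_congr rfl fun i hi => ?_
          rw [hx₁ i hi]
      _ ≤ ∑ i, (x i - x₁ i) ^ 2 := Finset.sum_le_sum_of_subset_of_nonneg (Finset.subset_univ I)
          fun _ _ _ => sq_nonneg _
      _ ≤ ∑ _i : Fin 3, ρ ^ 2 := Finset.sum_le_sum fun i _ => by
          rw [← sq_abs]
          exact pow_le_pow_left₀ (abs_nonneg _) (coord_ball hx i).le 2
      _ = 3 * ρ ^ 2 := by
          rw [Finset.sum_const, Finset.card_univ, Fintype.card_fin, nsmul_eq_mul]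
          norm_num
      _ < _ := by nlinarith [pow_pos hρ 2]
  show dI I x₀ x < 2 * ρ
  unfold dI
  rw [Real.sqrt_lt' (by positivity)]
  exact h1

/-- The smallness of the dissipation. -/
lemma small2 (h : ST ν T u p t₀ E) (hI : I.card = n + 1) (hn : 1 ≤ n) (hR : 0 < R) (hδ0 : 0 < δ)
    (hδ1 : δ ≤ 1) (hm : IntegrableOn m (Ioo t₀ T))
    (hin : ∀ᵐ τ ∂(volume.restrict (Ioo t₀ T)), InL I x₀ R ν δ (cw u τ) (p τ) (m τ))
    (ht₂ : t₂ ∈ Ioo t₀ T) (L θ : ℝ) (hL : 1 ≤ L) (hθ : 0 < θ) :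
    ∃ k : ℕ, t₂ ≤ T - (1 / 4) ^ k ∧ ∀ x₁ ∈ PI' I x₀,
      ∀ s ∈ Ico (T - (1 / 4) ^ k / 4) T, ∫⁻ τ in Ioc (T - (1 / 4) ^ k / 4) s,
        ∫⁻ x in ball x₁ (L * (1 / 2) ^ k), ENNReal.ofReal (gw (cw u τ) x)
        ≤ ENNReal.ofReal (θ * (1 / 2) ^ k) := by
  have hν := h.hν
  have hE := Real.exp_pos (1 / (4 * ν))
  have hL0 : 0 < L := by linarith
  obtain ⟨A, hA, hsb⟩ := sbK h hI hR hδ0.le hδ1 hm hin ht₂
  obtain ⟨C, hC, hen⟩ := en_K h hI hR hδ1 hm hin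
  obtain ⟨D, hD⟩ : ∃ D : ℝ, D = 2 ^ (n + 1) * Real.exp (1 / (4 * ν)) * (2 * L) * (1 / (2 * δ * ν)) :=
    ⟨_, rfl⟩
  have hD0 : 0 < D := by rw [hD]; positivity
  obtain ⟨r₁, hr₁, hr₁1, hsm⟩ := smK (x₀ := x₀) h hI hn hR hδ0.le hδ1 hm hin ht₂ hA hsb
    (θ := θ / D) (by positivity)
  have e1 : ∀ᶠ k : ℕ in atTop, ((1 : ℝ) / 2) ^ k < r₁ / (2 * L) :=
    (tendsto_order.1 (tendsto_pow_atTop_nhds_zero_of_lt_one (by norm_num : (0 : ℝ) ≤ 1 / 2)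
      (by norm_num))).2 _ (by positivity)
  have e2 : ∀ᶠ k : ℕ in atTop, ((1 : ℝ) / 4) ^ k < T - t₂ :=
    (tendsto_order.1 (tendsto_pow_atTop_nhds_zero_of_lt_one (by norm_num : (0 : ℝ) ≤ 1 / 4)
      (by norm_num))).2 _ (by linarith [ht₂.2])
  obtain ⟨k, hk1, hk2⟩ := (e1.and e2).exists
  refine ⟨k, by linarith, ?_⟩
  intro x₁ hx₁ s hs
  have h4 : ((1 : ℝ) / 4) ^ k = ((1 / 2) ^ k) ^ 2 := pow4 k
  obtain ⟨z, hz⟩ : ∃ z : ℝ, z = (1 / 2) ^ k := ⟨_, rfl⟩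
  have hz0 : 0 < z := by rw [hz]; positivity
  rw [h4] at hs ⊢
  rw [← hz] at hk1 hs ⊢
  obtain ⟨r, hr⟩ : ∃ r : ℝ, r = 2 * (L * z) := ⟨_, rfl⟩
  have hr0 : 0 < r := by rw [hr]; positivity
  have hr1 : r ≤ r₁ := by
    rw [lt_div_iff₀ (by positivity)] at hk1
    rw [hr]
    linarith
  have hzr : z ^ 2 / 4 ≤ r ^ 2 := by
    rw [hr]
    nlinarith [mul_pos hL0 hz0, pow_pos hz0 2, mul_le_mul_of_nonneg_right hL hz0.le]
  have hsr : s ∈ Ico (T - r ^ 2) T := ⟨by linarith [hs.1], hs.2⟩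
  obtain ⟨hs1, -, hs3⟩ := hsm r hr0 hr1 s hsr
  have hrr : 0 < r ^ 2 := by positivity
  have hs0 : t₀ ≤ s - r ^ 2 := ht₂.1.le.trans hs1
  obtain ⟨i1, -⟩ := hen (s - r ^ 2) s (s + r ^ 2) hs0 (by linarith) hs.2 (by linarith)
    (by linarith [hs.2, pow_le_one₀ hr0.le (hr1.trans hr₁1) (n := 2)])
  have hsub : Ioc (T - z ^ 2 / 4) s ⊆ Ioc (s - r ^ 2) s := by
    refine Ioc_subset_Ioc_left ?_
    linarith [hs.2]
  have e3 : ∫⁻ τ in Ioc (s - r ^ 2) s, ∫⁻ x, ENNReal.ofReal (gw (cw u τ) x)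
      * ENNReal.ofReal (kI I ν (s + r ^ 2) x₀ τ x)
      = ENNReal.ofReal ν⁻¹ * ENNReal.ofReal
        (∫ τ in Ioc (s - r ^ 2) s, ν * dsW (cw u τ) (kI I ν (s + r ^ 2) x₀ τ)) := by
    rw [ofReal_integral_eq_lintegral_ofReal i1
      (Eventually.of_forall fun τ => mul_nonneg hν.le (dsW_nonneg fun x => kI_nonneg x)),
      ← lintegral_const_mul' _ _ ENNReal.ofReal_ne_top]
    refine setLIntegral_congr_fun measurableSet_Ioc fun τ hτ => ?_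
    have hτ' : τ ∈ Ioo 0 T := ⟨by linarith [hτ.1, h.t0], hτ.2.trans_lt hs.2⟩
    rw [← ENNReal.ofReal_mul (by positivity), ← mul_assoc, inv_mul_cancel₀ hν.ne', one_mul,
      dsW_lint (fun i => h.toHS.cw_HF hτ' i) (kI_BF hν (by linarith [hτ.2])) fun x => kI_nonneg x]
  calc ∫⁻ τ in Ioc (T - z ^ 2 / 4) s, ∫⁻ x in ball x₁ (L * z), ENNReal.ofReal (gw (cw u τ) x)
      ≤ ∫⁻ τ in Ioc (s - r ^ 2) s, ∫⁻ x in nb I x₀ r, ENNReal.ofReal (gw (cw u τ) x) := by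
        refine (lintegral_mono_set hsub).trans (lintegral_mono fun τ => lintegral_mono_set ?_)
        rw [hr]
        exact ball_nb hx₁ (by positivity)
    _ ≤ ∫⁻ τ in Ioc (s - r ^ 2) s, ENNReal.ofReal ((2 * r) ^ (n + 1) * Real.exp (1 / (4 * ν)))
        * ∫⁻ x, ENNReal.ofReal (gw (cw u τ) x) * ENNReal.ofReal (kI I ν (s + r ^ 2) x₀ τ x) := by
        refine setLIntegral_mono' measurableSet_Ioc fun τ hτ => ?_
        exact nb_low hI hν hr0 (by linarith [hτ.2]) (by linarith [hτ.1])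
    _ = ENNReal.ofReal ((2 * r) ^ (n + 1) * Real.exp (1 / (4 * ν))) * (ENNReal.ofReal ν⁻¹
        * ENNReal.ofReal (∫ τ in Ioc (s - r ^ 2) s, ν * dsW (cw u τ) (kI I ν (s + r ^ 2) x₀ τ))) := by
        rw [lintegral_const_mul' _ _ ENNReal.ofReal_ne_top, e3]
    _ = ENNReal.ofReal (2 ^ (n + 1) * Real.exp (1 / (4 * ν)) * r * (1 / (2 * δ * ν))
        * (2 * δ * (r ^ n * ∫ τ in Ioc (s - r ^ 2) s,
          ν * dsW (cw u τ) (kI I ν (s + r ^ 2) x₀ τ)))) := by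
        rw [← ENNReal.ofReal_mul (by positivity), ← ENNReal.ofReal_mul (by positivity)]
        congr 1
        field_simp
        ring
    _ ≤ ENNReal.ofReal (2 ^ (n + 1) * Real.exp (1 / (4 * ν)) * r * (1 / (2 * δ * ν)) * (θ / D)) :=
        ENNReal.ofReal_le_ofReal (mul_le_mul_of_nonneg_left hs3 (by positivity))
    _ = ENNReal.ofReal (θ * z) := by
        congr 1
        have : 2 ^ (n + 1) * Real.exp (1 / (4 * ν)) * r * (1 / (2 * δ * ν)) = D * z := by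
          rw [hD, hr]
          ring
        rw [this]
        field_simp

/-- Boundedness near a point or a line. -/
lemma near2 (h : ST ν T u p t₀ E) (hI : I.card = n + 1) (hn : 1 ≤ n) (hR : 0 < R) (hδ0 : 0 < δ)
    (hδ1 : δ ≤ 1) (hm : IntegrableOn m (Ioo t₀ T))
    (hin : ∀ᵐ τ ∂(volume.restrict (Ioo t₀ T)), InL I x₀ R ν δ (cw u τ) (p τ) (m τ)) :
    ∃ d Q : ℝ, 0 < d ∧ ∀ t ∈ Ioo (T - d) T, ∀ x₁ ∈ PI' I x₀, ∀ x ∈ ball x₁ d, ‖u t x‖ ≤ Q := by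
  obtain ⟨t₂, ht₂⟩ : ∃ t₂, t₂ ∈ Ioo t₀ T := ⟨(t₀ + T) / 2, by constructor <;> linarith [h.tT]⟩
  obtain ⟨A, hA, hsb⟩ := sbK h hI hR hδ0.le hδ1 hm hin ht₂
  refine near_of h.toHS (h.t0.trans ht₂.1) (A := 2 * A) (by positivity) ?_
    (small2 h hI hn hR hδ0 hδ1 hm hin ht₂)
  intro ρ hρ x₁ hx₁ s hs
  refine (lintegral_mono_set (ball_nb hx₁ hρ)).trans ((hsb (2 * ρ) (by positivity) s hs).trans
    (le_of_eq ?_))
  congr 1
  ring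

/-- The case of a plane. -/
lemma dI_single (c : Fin 3) (x₀ x : V) : dI {c} x₀ x = |x c - x₀ c| := by
  unfold dI qI
  rw [Finset.sum_singleton, Real.sqrt_sq_eq_abs]

lemma nb_single (c : Fin 3) (x₀ : V) (ρ : ℝ) : nb {c} x₀ ρ = slb c (x₀ c) ρ := by
  ext x
  show dI {c} x₀ x < ρ ↔ |x c - x₀ c| < ρ
  rw [dI_single]

/-- Boundedness near a plane. -/
lemma near1 {c : Fin 3} (h : ST ν T u p t₀ E) (hR : 0 < R) (hδ0 : 0 < δ)
    (hδ1 : δ ≤ 1) (hm : IntegrableOn m (Ioo t₀ T))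
    (hin : ∀ᵐ τ ∂(volume.restrict (Ioo t₀ T)), InL {c} x₀ R ν δ (cw u τ) (p τ) (m τ)) :
    ∃ d Q : ℝ, 0 < d ∧ ∀ t ∈ Ioo (T - d) T, ∀ x₁ ∈ PI' {c} x₀, ∀ x ∈ ball x₁ d, ‖u t x‖ ≤ Q := by
  obtain ⟨t₂, ht₂⟩ : ∃ t₂, t₂ ∈ Ioo t₀ T := ⟨(t₀ + T) / 2, by constructor <;> linarith [h.tT]⟩
  have hI : ({c} : Finset (Fin 3)).card = 0 + 1 := by simp
  obtain ⟨A, hA, hsb⟩ := sbK h hI hR hδ0.le hδ1 hm hin ht₂
  obtain ⟨B, hB, hsg, hvx⟩ := sgK h hI hR hδ0 hδ1 hm hin ht₂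
  have hPY : PY ν T u p c t₂ (x₀ c) (A + B) := by
    refine ⟨h.toHS, h.t0.trans ht₂.1, ht₂.2, by positivity, ?_, ?_, ⟨B, ?_⟩⟩
    · intro ρ hρ s hs
      have h1 := hsb ρ hρ s hs
      rw [nb_single] at h1
      refine h1.trans (ENNReal.ofReal_le_ofReal ?_)
      nlinarith
    · intro ρ hρ s' s hs' hss hs hk
      have h1 := hsg ρ hρ s' s hs' hss hs hk
      rw [nb_single] at h1
      refine h1.trans (ENNReal.ofReal_le_ofReal ?_)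
      nlinarith
    · have h1 := hvx rfl
      refine le_trans (le_of_eq ?_) h1
      refine lintegral_congr fun τ => lintegral_congr fun x => ?_
      have e1 : kI {c} ν T x₀ τ x = gk ν (T - τ) (x c - x₀ c) := by
        unfold kI gW
        rw [Finset.prod_singleton]
      rw [e1]
  obtain ⟨d, Q, hd, hQ⟩ := hPY.near
  refine ⟨d, Q, hd, fun t ht x₁ hx₁ x hx => hQ t ht x ?_⟩
  rw [← hx₁ c (Finset.mem_singleton_self c)]
  exact coord_ball hx c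

end

end Pool.Agent.H305.EF
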