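import Pool.Agent.H305.EF.Nea

/-!
Rotations.
-/

set_option autoImplicit false

open MeasureTheory Set Metric Filter Topology
open scoped ContDiff ENNReal

namespace Pool.Agent.H305.EF

open H459R3.NS W221.NS Pool.Agent.V1183.PM Pool.Agent.H305.OS Pool.Agent.H305.SL Pool.Agent.H305.PL

section
variable {ν T t : ℝ} {u : ℝ → V → V} {p : ℝ → V → ℝ} {M : Matrix (Fin 3) (Fin 3) ℝ}

lemma ipM (hM : SO M) (a b : V) : ∑ i, lm M a i * lm M b i = ∑ i, a i * b i := by
  have h1 : ∑ i, lm M a i * lm M b i = ∑ i, a i * lm M (lm M b) i := by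
    simp only [lm_apply, Fin.sum_univ_three]
    rw [hM.sy 1 0, hM.sy 2 0, hM.sy 2 1]
    ring
  rw [h1, hM.lm_lm]

lemma nl_uM (h : HS ν T u p) (hM : SO M) (ht : t ∈ Ioo 0 T) (i : Fin 3) (x : V) :
    nl (cw (uM M u) t) i x = lm M (fun k => nl (cw u t) k (lm M x)) i := by
  have r : ∀ i k, M i 0 * M 0 k + M i 1 * M 1 k + M i 2 * M 2 k = if i = k then 1 else 0 := by
    intro i k
    have := hM.sq i k
    rwa [Fin.sum_univ_three] at this
  have r00 := r 0 0
  have r01 := r 0 1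
  have r02 := r 0 2
  have r10 := r 1 0
  have r11 := r 1 1
  have r12 := r 1 2
  have r20 := r 2 0
  have r21 := r 2 1
  have r22 := r 2 2
  rw [if_pos rfl] at r00 r11 r22
  rw [if_neg (by decide)] at r01 r02 r10 r12 r20 r21
  have hw := fun k => (h.cw_HF ht k).sm
  rw [lm_apply]
  unfold nl
  have k1 : ∀ j, H459R3.NS.pd j (cw (uM M u) t i) x
      = ∑ k, M i k * ∑ l, M l j * H459R3.NS.pd l (cw u t k) (lm M x) := fun j =>
    congrFun (pd_comb (w := cw u t) hw (fun k => M i k) M j) x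
  have k2 : ∀ j, cw (uM M u) t j x = ∑ k, M j k * cw u t k (lm M x) := fun j => rfl
  simp only [k1, k2]
  simp only [Fin.sum_univ_three]
  linear_combination
    (cw u t 0 (lm M x) * (M i 0 * H459R3.NS.pd 0 (cw u t 0) (lm M x) + M i 1 * H459R3.NS.pd 0 (cw u t 1) (lm M x)
      + M i 2 * H459R3.NS.pd 0 (cw u t 2) (lm M x))) * r00
    + (cw u t 1 (lm M x) * (M i 0 * H459R3.NS.pd 0 (cw u t 0) (lm M x) + M i 1 * H459R3.NS.pd 0 (cw u t 1) (lm M x)
      + M i 2 * H459R3.NS.pd 0 (cw u t 2) (lm M x))) * r01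
    + (cw u t 2 (lm M x) * (M i 0 * H459R3.NS.pd 0 (cw u t 0) (lm M x) + M i 1 * H459R3.NS.pd 0 (cw u t 1) (lm M x)
      + M i 2 * H459R3.NS.pd 0 (cw u t 2) (lm M x))) * r02
    + (cw u t 0 (lm M x) * (M i 0 * H459R3.NS.pd 1 (cw u t 0) (lm M x) + M i 1 * H459R3.NS.pd 1 (cw u t 1) (lm M x)
      + M i 2 * H459R3.NS.pd 1 (cw u t 2) (lm M x))) * r10
    + (cw u t 1 (lm M x) * (M i 0 * H459R3.NS.pd 1 (cw u t 0) (lm M x) + M i 1 * H459R3.NS.pd 1 (cw u t 1) (lm M x)
      + M i 2 * H459R3.NS.pd 1 (cw u t 2) (lm M x))) * r11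
    + (cw u t 2 (lm M x) * (M i 0 * H459R3.NS.pd 1 (cw u t 0) (lm M x) + M i 1 * H459R3.NS.pd 1 (cw u t 1) (lm M x)
      + M i 2 * H459R3.NS.pd 1 (cw u t 2) (lm M x))) * r12
    + (cw u t 0 (lm M x) * (M i 0 * H459R3.NS.pd 2 (cw u t 0) (lm M x) + M i 1 * H459R3.NS.pd 2 (cw u t 1) (lm M x)
      + M i 2 * H459R3.NS.pd 2 (cw u t 2) (lm M x))) * r20
    + (cw u t 1 (lm M x) * (M i 0 * H459R3.NS.pd 2 (cw u t 0) (lm M x) + M i 1 * H459R3.NS.pd 2 (cw u t 1) (lm M x)
      + M i 2 * H459R3.NS.pd 2 (cw u t 2) (lm M x))) * r21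
    + (cw u t 2 (lm M x) * (M i 0 * H459R3.NS.pd 2 (cw u t 0) (lm M x) + M i 1 * H459R3.NS.pd 2 (cw u t 1) (lm M x)
      + M i 2 * H459R3.NS.pd 2 (cw u t 2) (lm M x))) * r22

lemma pd_pM (h : HS ν T u p) (hM : SO M) (ht : t ∈ Ioo 0 T) (i : Fin 3) (x : V) :
    H459R3.NS.pd i (pM M p t) x = lm M (fun k => H459R3.NS.pd k (p t) (lm M x)) i := by
  have k1 := congrFun (pd_lin (h.p_HF ht).sm M i) x
  have k2 : H459R3.NS.pd i (pM M p t) x = ∑ l, M l i * H459R3.NS.pd l (p t) (lm M x) := k1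
  rw [k2, lm_apply]
  apply Finset.sum_congr rfl
  intro k _
  rw [hM.sy k i]

lemma wk_uM (h : HS ν T u p) (hM : SO M) (ht : t ∈ Ioo 0 T) (x : V) :
    wk (cw (uM M u) t) (pM M p t) x = wk (cw u t) (p t) (lm M x) := by
  unfold wk
  have k2 : ∀ j, cw (uM M u) t j x = lm M (fun k => cw u t k (lm M x)) j := fun j => by
    rw [lm_apply]
    rfl
  simp only [nl_uM h hM ht, pd_pM h hM ht, k2]
  rw [Finset.sum_add_distrib, ipM hM, ipM hM, Finset.sum_add_distrib]

lemma gw_uM (h : HS ν T u p) (hM : SO M) (ht : t ∈ Ioo 0 T) (x : V) :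
    gw (cw (uM M u) t) x = gw (cw u t) (lm M x) := by
  have hw := fun k => (h.cw_HF ht k).sm
  have k1 : ∀ i k, H459R3.NS.pd k (cw (uM M u) t i) x
      = lm M (fun a => lm M (fun l => H459R3.NS.pd l (cw u t a) (lm M x)) k) i := by
    intro i k
    have k2 := congrFun (pd_comb (w := cw u t) hw (fun a => M i a) M k) x
    have k3 : H459R3.NS.pd k (cw (uM M u) t i) x
        = ∑ a, M i a * ∑ l, M l k * H459R3.NS.pd l (cw u t a) (lm M x) := k2
    rw [k3, lm_apply]
    apply Finset.sum_congr rfl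
    intro a _
    rw [lm_apply]
    congr 1
    apply Finset.sum_congr rfl
    intro l _
    rw [hM.sy l k]
  unfold gw
  simp only [k1]
  rw [Finset.sum_comm]
  simp only [hM.sum_sq]
  rw [Finset.sum_comm]
  simp only [hM.sum_sq]

lemma lm_emb (hM : SO M) : MeasurableEmbedding (lm M) := by
  apply (lm M).continuous.measurableEmbedding
  intro x y hxy
  have h1 := congrArg (lm M) hxy
  simpa only [hM.lm_lm] using h1

lemma int_lm (hM : SO M) (F : V → ℝ) (S : Set V) :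
    ∫ x in (lm M) ⁻¹' S, F (lm M x) = ∫ x in S, F x :=
  hM.mp.setIntegral_preimage_emb (lm_emb hM) F S

end

/-- The neighbourhoods of the affine subspace through `b` orthogonal to the vectors `f i`. -/
def nbh {m : ℕ} (f : Fin m → V) (b : V) (ρ : ℝ) : Set V :=
  {x | ∑ i, (∑ l, f i l * (x l - b l)) ^ 2 < ρ ^ 2}

/-- Three orthonormal vectors. -/
lemma par3 {f : Fin 3 → V} (hf : ∀ i j, ∑ l, f i l * f j l = if i = j then 1 else 0) (z : V) :
    ∑ i, (∑ l, f i l * z l) ^ 2 = ∑ l, z l ^ 2 := by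
  obtain ⟨F, hF⟩ : ∃ F : Matrix (Fin 3) (Fin 3) ℝ, F = Matrix.of f := ⟨_, rfl⟩
  have h1 : F * F.transpose = 1 := by
    ext i j
    rw [Matrix.mul_apply, Matrix.one_apply, ← hf i j]
    refine Finset.sum_congr rfl fun l _ => ?_
    rw [Matrix.transpose_apply, hF]
    rfl
  have h2 : F.transpose * F = 1 := mul_eq_one_comm.1 h1
  have h3 : ∀ a b, ∑ i, f i a * f i b = if a = b then 1 else 0 := by
    intro a b
    have := congrFun (congrFun h2 a) b
    rw [Matrix.mul_apply, Matrix.one_apply] at this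
    rw [← this]
    refine Finset.sum_congr rfl fun l _ => ?_
    rw [Matrix.transpose_apply, hF]
    rfl
  have g00 := h3 0 0
  have g01 := h3 0 1
  have g02 := h3 0 2
  have g11 := h3 1 1
  have g12 := h3 1 2
  have g22 := h3 2 2
  rw [if_pos rfl] at g00 g11 g22
  rw [if_neg (by decide)] at g01 g02 g12
  simp only [Fin.sum_univ_three] at *
  linear_combination z 0 ^ 2 * g00 + z 1 ^ 2 * g11 + z 2 ^ 2 * g22 + 2 * z 0 * z 1 * g01
    + 2 * z 0 * z 2 * g02 + 2 * z 1 * z 2 * g12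

/-- The reduction to coordinate subspaces. -/
lemma exists_MI {m : ℕ} (hm : 0 < m) {f : Fin m → V}
    (hf : ∀ i j, ∑ l, f i l * f j l = if i = j then 1 else 0) :
    ∃ (M : Matrix (Fin 3) (Fin 3) ℝ) (I : Finset (Fin 3)), SO M ∧ I.card = m ∧
      ∀ z : V, ∑ i ∈ I, lm M z i ^ 2 = ∑ i, (∑ l, f i l * z l) ^ 2 := by
  match m, hm, f, hf with
  | 1, _, f, hf =>
    have h1 : ∑ l, f 0 l ^ 2 = 1 := by
      have := hf 0 0
      rw [if_pos rfl] at this
      rw [← this]
      exact Finset.sum_congr rfl fun l _ => sq (f 0 l)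
    obtain ⟨M, hM, hMf⟩ := exists_SO h1
    refine ⟨M, {2}, hM, by simp, fun z => ?_⟩
    rw [Finset.sum_singleton, Fin.sum_univ_one, lm_apply]
    congr 1
    refine Finset.sum_congr rfl fun l _ => ?_
    rw [hM.sy 2 l, hMf l]
  | 2, _, f, hf =>
    have a00 := hf 0 0
    have a01 := hf 0 1
    have a11 := hf 1 1
    rw [if_pos rfl] at a00 a11
    rw [if_neg (by decide)] at a01
    simp only [Fin.sum_univ_three] at a00 a01 a11
    obtain ⟨g, hg⟩ : ∃ g : V, g = ![f 0 1 * f 1 2 - f 0 2 * f 1 1, f 0 2 * f 1 0 - f 0 0 * f 1 2,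
      f 0 0 * f 1 1 - f 0 1 * f 1 0] := ⟨_, rfl⟩
    have g0 : g 0 = f 0 1 * f 1 2 - f 0 2 * f 1 1 := by rw [hg]; rfl
    have g1 : g 1 = f 0 2 * f 1 0 - f 0 0 * f 1 2 := by rw [hg]; rfl
    have g2 : g 2 = f 0 0 * f 1 1 - f 0 1 * f 1 0 := by rw [hg]; rfl
    have hgg : g 0 * g 0 + g 1 * g 1 + g 2 * g 2 = 1 := by
      rw [g0, g1, g2]
      have e : (f 0 1 * f 1 2 - f 0 2 * f 1 1) * (f 0 1 * f 1 2 - f 0 2 * f 1 1)
          + (f 0 2 * f 1 0 - f 0 0 * f 1 2) * (f 0 2 * f 1 0 - f 0 0 * f 1 2)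
          + (f 0 0 * f 1 1 - f 0 1 * f 1 0) * (f 0 0 * f 1 1 - f 0 1 * f 1 0)
          = (f 0 0 * f 0 0 + f 0 1 * f 0 1 + f 0 2 * f 0 2)
            * (f 1 0 * f 1 0 + f 1 1 * f 1 1 + f 1 2 * f 1 2)
            - (f 0 0 * f 1 0 + f 0 1 * f 1 1 + f 0 2 * f 1 2) ^ 2 := by ring
      rw [e, a00, a11, a01]
      norm_num
    have hg2 : ∑ l, g l ^ 2 = 1 := by
      rw [Fin.sum_univ_three]
      linarith
    obtain ⟨M, hM, hMg⟩ := exists_SO hg2
    obtain ⟨F, hF⟩ : ∃ F : Fin 3 → V, F = ![f 0, f 1, g] := ⟨_, rfl⟩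
    have F0 : F 0 = f 0 := by rw [hF]; rfl
    have F1 : F 1 = f 1 := by rw [hF]; rfl
    have F2 : F 2 = g := by rw [hF]; rfl
    have hFo : ∀ i j, ∑ l, F i l * F j l = if i = j then 1 else 0 := by
      intro i j
      fin_cases i <;> fin_cases j <;> simp only [Fin.sum_univ_three, Fin.zero_eta, Fin.mk_one,
        Fin.reduceFinMk, F0, F1, F2, g0, g1, g2, if_true]
      · exact a00
      · rw [if_neg (by decide)]; exact a01
      · rw [if_neg (by decide)]; ring
      · rw [if_neg (by decide)]; linarith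
      · exact a11
      · rw [if_neg (by decide)]; ring
      · rw [if_neg (by decide)]; ring
      · rw [if_neg (by decide)]; ring
      · rw [g0, g1, g2] at hgg
        exact hgg
    refine ⟨M, {0, 1}, hM, rfl, fun z => ?_⟩
    have k1 := par3 hFo z
    have k2 := hM.sum_sq z
    have k3 : lm M z 2 = ∑ l, g l * z l := by
      rw [lm_apply]
      refine Finset.sum_congr rfl fun l _ => ?_
      rw [hM.sy 2 l, hMg l]
    rw [Fin.sum_univ_three] at k1
    rw [F0, F1, F2, ← k3, ← k2, Fin.sum_univ_three (f := fun i => lm M z i ^ 2)] at k1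
    rw [Fin.sum_univ_two, Finset.sum_pair (by decide)]
    linarith
  | 3, _, f, hf =>
    refine ⟨1, Finset.univ, ?_, by simp, fun z => ?_⟩
    · refine ⟨fun i j => by rw [Matrix.one_apply, Matrix.one_apply]; simp only [eq_comm],
        fun i k => ?_⟩
      have h2 : (1 : Matrix (Fin 3) (Fin 3) ℝ) * 1 = 1 := by simp
      have h3 := congrFun (congrFun h2 i) k
      rw [Matrix.mul_apply, Matrix.one_apply] at h3
      exact h3
    · rw [par3 hf]
      refine Finset.sum_congr rfl fun i _ => ?_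
      rw [lm_apply]
      simp [Matrix.one_apply]
  | (k + 4), _, f, hf =>
    exfalso
    obtain ⟨g, hg⟩ : ∃ g : Fin 3 → V, g = fun i => f (Fin.castLE (by omega) i) := ⟨_, rfl⟩
    have hgo : ∀ i j, ∑ l, g i l * g j l = if i = j then 1 else 0 := by
      intro i j
      rw [hg]
      simp only [hf]
      by_cases h : i = j
      · subst h
        simp
      · rw [if_neg h, if_neg]
        intro h'
        exact h (Fin.castLE_injective _ h')
    have h3 := par3 hgo (f ⟨3, by omega⟩)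
    have h4 : ∀ i : Fin 3, ∑ l, g i l * f ⟨3, by omega⟩ l = 0 := by
      intro i
      rw [hg]
      simp only
      rw [hf, if_neg]
      intro h'
      have := congrArg Fin.val h'
      simp at this
      omega
    simp only [h4] at h3
    have h5 := hf ⟨3, by omega⟩ ⟨3, by omega⟩
    rw [if_pos rfl] at h5
    have h6 : ∑ l, f ⟨3, by omega⟩ l ^ 2 = (1 : ℝ) := by
      rw [← h5]
      exact Finset.sum_congr rfl fun l _ => sq _
    rw [h6] at h3
    norm_num at h3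

end Pool.Agent.H305.EF
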