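import Pool.Agent.H305.EF.Nbd

/-!
Smallness near the final time.
-/

set_option autoImplicit false

open MeasureTheory Set Metric Filter Topology
open scoped ContDiff ENNReal

namespace Pool.Agent.H305.EF

open H459R3.NS W221.NS Pool.Agent.V1183.PM Pool.Agent.H305.OS Pool.Agent.H305.SL Pool.Agent.H305.PL

lemma small_int {f : ℝ → ℝ} {t₀ T η : ℝ} (hf : IntegrableOn f (Ioo t₀ T)) (hf0 : ∀ τ, 0 ≤ f τ)
    (hη : 0 < η) (htT : t₀ < T) : ∃ h₀ : ℝ, 0 < h₀ ∧ h₀ ≤ T - t₀ ∧ ∀ t₁ s : ℝ, T - h₀ ≤ t₁ → s < T →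
      ∫ τ in Ioc t₁ s, f τ ≤ η := by
  have h1 : ∫⁻ τ, ENNReal.ofReal (f τ) ∂(volume.restrict (Ioo t₀ T)) ≠ ⊤ := hf.lintegral_lt_top.ne
  obtain ⟨d, hd, h2⟩ := exists_pos_setLIntegral_lt_of_measure_lt h1
    (ε := ENNReal.ofReal η) (by simpa using hη)
  obtain ⟨r, hr0, hr1, hr2⟩ := ENNReal.lt_iff_exists_real_btwn.1 hd
  have hr : 0 < r := by simpa using hr1
  refine ⟨min r (T - t₀), lt_min hr (by linarith), min_le_right _ _, ?_⟩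
  intro t₁ s ht₁ hs
  have hm1 := min_le_left r (T - t₀)
  have hm2 := min_le_right r (T - t₀)
  have hsub : Ioc t₁ s ⊆ Ioo t₀ T := fun τ hτ => ⟨by linarith [hτ.1], hτ.2.trans_lt hs⟩
  have hv : (volume.restrict (Ioo t₀ T)) (Ioc t₁ s) < d := by
    refine lt_of_le_of_lt (Measure.restrict_le_self _) ?_
    rw [Real.volume_Ioc]
    exact (ENNReal.ofReal_le_ofReal (by linarith)).trans_lt hr2
  have h3 := h2 _ hv
  rw [Measure.restrict_restrict measurableSet_Ioc, inter_eq_self_of_subset_left hsub] at h3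
  rw [← ENNReal.ofReal_le_ofReal_iff hη.le, ofReal_integral_eq_lintegral_ofReal
    (hf.mono_set hsub) (Eventually.of_forall hf0)]
  exact h3.le

section
variable {I : Finset (Fin 3)} {ν T t₀ t₂ E R δ A θ : ℝ} {x₀ : V}
  {u : ℝ → V → V} {p : ℝ → V → ℝ} {m : ℝ → ℝ} {n : ℕ}

/-- The weighted energy from the bounds on the neighbourhoods. -/
lemma enW_sb (hν : 0 < ν) (hI : I.card = n + 1) {w : Fin 3 → V → ℝ} (hw : ∀ i, HF (w i))
    (hA : 0 ≤ A) (hsb : ∀ ρ : ℝ, 0 < ρ → ∫⁻ x in nb I x₀ ρ, ENNReal.ofReal (nw w x)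
      ≤ ENNReal.ofReal (A * ρ)) {T' τ : ℝ} (hτ : τ < T') :
    enW w (kI I ν T' x₀ τ) ≤ ((√(T' - τ))⁻¹) ^ n * (A * √(Real.pi * ν)) := by
  have ha : 0 < T' - τ := by linarith
  have iN : Integrable (nw w) := by
    have i1 : ∀ i, Integrable fun x => w i x ^ 2 := fun i => by
      simpa using sqB_int (hw i) BF_one
    exact integrable_finsetSum _ fun i _ => i1 i
  have h1 : ∀ ρ : ℝ, 0 < ρ → ∫ x in {x | dI I x₀ x < ρ}, nw w x ≤ A * ρ := by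
    intro ρ hρ
    rw [← ENNReal.ofReal_le_ofReal_iff (by positivity), ofReal_integral_eq_lintegral_ofReal
      iN.integrableOn (Eventually.of_forall fun x => nw_nonneg w x)]
    exact hsb ρ hρ
  have h2 := cakeD (d := dI I x₀) (dI_cont I x₀).measurable (dI_nonneg I x₀) hν ha iN h1
  have e1 : enW w (kI I ν T' x₀ τ) = ((√(T' - τ))⁻¹) ^ n * ∫ x, nw w x * gk ν (T' - τ) (dI I x₀ x) := by
    unfold enW
    rw [← integral_const_mul]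
    congr 1
    funext x
    rw [kI_gk hI]
    unfold nw
    ring
  rw [e1]
  exact mul_le_mul_of_nonneg_left h2 (by positivity)

/-- Smallness. -/
lemma smK (h : ST ν T u p t₀ E) (hI : I.card = n + 1) (hn : 1 ≤ n) (hR : 0 < R) (hδ0 : 0 ≤ δ)
    (hδ1 : δ ≤ 1) (hm : IntegrableOn m (Ioo t₀ T))
    (hin : ∀ᵐ τ ∂(volume.restrict (Ioo t₀ T)), InL I x₀ R ν δ (cw u τ) (p τ) (m τ))
    (ht₂ : t₂ ∈ Ioo t₀ T) (hA : 0 ≤ A)
    (hsb : ∀ ρ : ℝ, 0 < ρ → ∀ s ∈ Ico t₂ T,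
      ∫⁻ x in nb I x₀ ρ, ENNReal.ofReal (nw (cw u s) x) ≤ ENNReal.ofReal (A * ρ)) (hθ : 0 < θ) :
    ∃ r₁ : ℝ, 0 < r₁ ∧ r₁ ≤ 1 ∧ ∀ r : ℝ, 0 < r → r ≤ r₁ → ∀ s ∈ Ico (T - r ^ 2) T,
      t₂ ≤ s - r ^ 2 ∧
      (√(s + r ^ 2 - s)) ^ n * enW (cw u s) (kI I ν (s + r ^ 2) x₀ s) ≤ θ ∧
      2 * δ * (r ^ n * ∫ τ in Ioc (s - r ^ 2) s, ν * dsW (cw u τ) (kI I ν (s + r ^ 2) x₀ τ)) ≤ θ := by
  have hν := h.hν
  have hE := h.E0
  obtain ⟨C, hC, hen⟩ := en_K h hI hR hδ1 hm hin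
  obtain ⟨N, hN⟩ := exists_nat_gt (A * √(Real.pi * ν) / (θ / 3))
  obtain ⟨K, hK⟩ : ∃ K : ℝ, K = N + 2 := ⟨_, rfl⟩
  have hN0 : (0 : ℝ) ≤ N := Nat.cast_nonneg N
  have hK2 : 2 ≤ K := by rw [hK]; linarith
  have hK0 : 0 < K := by linarith
  have hKA : K⁻¹ * (A * √(Real.pi * ν)) ≤ θ / 3 := by
    rw [inv_mul_le_iff₀ hK0]
    rw [div_lt_iff₀ (by positivity)] at hN
    have : (N : ℝ) * (θ / 3) ≤ K * (θ / 3) := mul_le_mul_of_nonneg_right (by rw [hK]; linarith)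
      (by positivity)
    linarith
  obtain ⟨h₁, hh₁, -, hm₁⟩ := small_int (η := θ / 3 / (2 * √(Real.pi * ν) + 1)) hm.abs
    (fun τ => abs_nonneg (m τ)) (by positivity) h.tT
  obtain ⟨h₂, hh₂, -, hF₂⟩ := small_int (η := θ / 3 / (C + 1)) h.Fx_int
    (fun τ => ENNReal.toReal_nonneg) (by positivity) h.tT
  obtain ⟨b, hb⟩ : ∃ b : ℝ, b = min (min h₁ h₂) (T - t₂) := ⟨_, rfl⟩
  have hb0 : 0 < b := by
    rw [hb]
    exact lt_min (lt_min hh₁ hh₂) (by linarith [ht₂.2])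
  have hb1 : b ≤ h₁ := by rw [hb]; exact (min_le_left _ _).trans (min_le_left _ _)
  have hb2 : b ≤ h₂ := by rw [hb]; exact (min_le_left _ _).trans (min_le_right _ _)
  have hb3 : b ≤ T - t₂ := by rw [hb]; exact min_le_right _ _
  refine ⟨min 1 (√b / K), by positivity, min_le_left _ _, ?_⟩
  intro r hr hr1 s hs
  have hr2 : r ≤ 1 := hr1.trans (min_le_left _ _)
  have hr3 : K ^ 2 * r ^ 2 ≤ b := by
    have h1 : r ≤ √b / K := hr1.trans (min_le_right _ _)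
    rw [le_div_iff₀ hK0] at h1
    calc K ^ 2 * r ^ 2 = (r * K) ^ 2 := by ring
      _ ≤ √b ^ 2 := pow_le_pow_left₀ (by positivity) h1 2
      _ = b := Real.sq_sqrt hb0.le
  have hrr : 0 < r ^ 2 := by positivity
  have hK4 : 4 ≤ K ^ 2 := by nlinarith
  have hKr : 4 * r ^ 2 ≤ K ^ 2 * r ^ 2 := mul_le_mul_of_nonneg_right hK4 hrr.le
  obtain ⟨t₁, ht₁⟩ : ∃ t₁ : ℝ, t₁ = s + r ^ 2 - K ^ 2 * r ^ 2 := ⟨_, rfl⟩
  have ht₁a : T - b ≤ t₁ := by rw [ht₁]; linarith [hs.1]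
  have ht₁b : t₁ ≤ s - r ^ 2 := by rw [ht₁]; linarith
  have ht₁2 : t₂ ≤ t₁ := by linarith
  have ht₁0 : t₀ ≤ t₁ := ht₂.1.le.trans ht₁2
  have hs2 : t₂ ≤ s := by linarith
  obtain ⟨i1, e⟩ := hen t₁ s (s + r ^ 2) ht₁0 (by linarith) hs.2 (by linarith)
    (by linarith [hs.2, pow_le_one₀ hr.le hr2 (n := 2)])
  have hr5 : √(s + r ^ 2 - s) = r := by rw [add_sub_cancel_left, Real.sqrt_sq hr.le]
  rw [hr5] at e ⊢
  have e1 : √(s + r ^ 2 - t₁) = K * r := by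
    rw [ht₁, show s + r ^ 2 - (s + r ^ 2 - K ^ 2 * r ^ 2) = (K * r) ^ 2 by ring,
      Real.sqrt_sq (by positivity)]
  have hI₁ : t₁ ∈ Ioo 0 T := ⟨h.t0.trans_le ht₁0, by linarith [hs.2]⟩
  have h1 := enW_sb (x₀ := x₀) hν hI (w := cw u t₁) (fun i => h.toHS.cw_HF hI₁ i) hA
    (fun ρ hρ => hsb ρ hρ t₁ ⟨ht₁2, hI₁.2⟩) (T' := s + r ^ 2) (τ := t₁) (by linarith)
  rw [e1] at h1
  have h2 : r ^ n * enW (cw u t₁) (kI I ν (s + r ^ 2) x₀ t₁) ≤ θ / 3 := by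
    calc r ^ n * enW (cw u t₁) (kI I ν (s + r ^ 2) x₀ t₁)
        ≤ r ^ n * (((K * r)⁻¹) ^ n * (A * √(Real.pi * ν))) :=
          mul_le_mul_of_nonneg_left h1 (by positivity)
      _ = (K⁻¹) ^ n * (A * √(Real.pi * ν)) := by
          rw [mul_inv, mul_pow, inv_pow r]
          field_simp
      _ ≤ K⁻¹ * (A * √(Real.pi * ν)) := by
          refine mul_le_mul_of_nonneg_right ?_ (by positivity)
          calc (K⁻¹) ^ n ≤ (K⁻¹) ^ 1 := pow_le_pow_of_le_one (by positivity)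
                (inv_le_one_of_one_le₀ (by linarith)) hn
            _ = K⁻¹ := pow_one _
      _ ≤ _ := hKA
  have h3 := hm₁ t₁ s (by linarith) hs.2
  have h4 := hF₂ t₁ s (by linarith) hs.2
  have hm0 : 0 ≤ ∫ τ in Ioc t₁ s, |m τ| := integral_nonneg fun _ => abs_nonneg _
  have hF0 : 0 ≤ ∫ τ in Ioc t₁ s, (Fx u p τ).toReal := integral_nonneg fun _ => ENNReal.toReal_nonneg
  have h5 : r ^ n * (2 * √(Real.pi * ν) * ((r⁻¹) ^ n * ∫ τ in Ioc t₁ s, |m τ|)) ≤ θ / 3 := by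
    calc r ^ n * (2 * √(Real.pi * ν) * ((r⁻¹) ^ n * ∫ τ in Ioc t₁ s, |m τ|))
        = 2 * √(Real.pi * ν) * (∫ τ in Ioc t₁ s, |m τ|) := by
          rw [inv_pow]
          field_simp
      _ ≤ 2 * √(Real.pi * ν) * (θ / 3 / (2 * √(Real.pi * ν) + 1)) :=
          mul_le_mul_of_nonneg_left h3 (by positivity)
      _ ≤ _ := by
          rw [mul_div_assoc', div_le_iff₀ (by positivity)]
          nlinarith
  have h6 : r ^ n * (C * ∫ τ in Ioc t₁ s, (Fx u p τ).toReal) ≤ θ / 3 := by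
    calc r ^ n * (C * ∫ τ in Ioc t₁ s, (Fx u p τ).toReal)
        ≤ 1 * (C * (θ / 3 / (C + 1))) :=
          mul_le_mul (pow_le_one₀ hr.le hr2) (mul_le_mul_of_nonneg_left h4 hC) (by positivity)
            zero_le_one
      _ ≤ _ := by
          rw [one_mul, mul_div_assoc', div_le_iff₀ (by positivity)]
          nlinarith
  have h7 := mul_le_mul_of_nonneg_left e (pow_nonneg hr.le n)
  have hEs : 0 ≤ enW (cw u s) (kI I ν (s + r ^ 2) x₀ s) := enW_nonneg fun x => kI_nonneg x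
  have hDi : 0 ≤ ∫ τ in Ioc t₁ s, ν * dsW (cw u τ) (kI I ν (s + r ^ 2) x₀ τ) :=
    integral_nonneg fun τ => mul_nonneg hν.le (dsW_nonneg fun x => kI_nonneg x)
  have h8 : r ^ n * (enW (cw u s) (kI I ν (s + r ^ 2) x₀ s)
      + 2 * δ * ∫ τ in Ioc t₁ s, ν * dsW (cw u τ) (kI I ν (s + r ^ 2) x₀ τ))
      = r ^ n * enW (cw u s) (kI I ν (s + r ^ 2) x₀ s)
      + 2 * δ * (r ^ n * ∫ τ in Ioc t₁ s, ν * dsW (cw u τ) (kI I ν (s + r ^ 2) x₀ τ)) := by ring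
  have h9 : r ^ n * (enW (cw u t₁) (kI I ν (s + r ^ 2) x₀ t₁)
        + (2 * √(Real.pi * ν) * ((r⁻¹) ^ n * ∫ τ in Ioc t₁ s, |m τ|)
          + C * ∫ τ in Ioc t₁ s, (Fx u p τ).toReal))
      = r ^ n * enW (cw u t₁) (kI I ν (s + r ^ 2) x₀ t₁)
        + (r ^ n * (2 * √(Real.pi * ν) * ((r⁻¹) ^ n * ∫ τ in Ioc t₁ s, |m τ|))
          + r ^ n * (C * ∫ τ in Ioc t₁ s, (Fx u p τ).toReal)) := by ring
  rw [h8, h9] at h7
  have h10 : 0 ≤ r ^ n * enW (cw u s) (kI I ν (s + r ^ 2) x₀ s) := by positivity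
  have h11 : 0 ≤ 2 * δ * (r ^ n * ∫ τ in Ioc t₁ s, ν * dsW (cw u τ) (kI I ν (s + r ^ 2) x₀ τ)) := by
    positivity
  have h12 : 2 * δ * (r ^ n * ∫ τ in Ioc (s - r ^ 2) s,
      ν * dsW (cw u τ) (kI I ν (s + r ^ 2) x₀ τ))
      ≤ 2 * δ * (r ^ n * ∫ τ in Ioc t₁ s, ν * dsW (cw u τ) (kI I ν (s + r ^ 2) x₀ τ)) := by
    refine mul_le_mul_of_nonneg_left (mul_le_mul_of_nonneg_left ?_ (by positivity)) (by positivity)
    exact setIntegral_mono_set i1 (Eventually.of_forall fun τ => mul_nonneg hν.le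
      (dsW_nonneg fun x => kI_nonneg x)) (Ioc_subset_Ioc_left ht₁b).eventuallyLE
  refine ⟨by linarith, by linarith, by linarith⟩

end

end Pool.Agent.H305.EF
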